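import Pool.Agent.T2H73.LB.Fin
import Pool.Agent.Y429.RG.MINKM

/-!
# The inequality of Kannan, Lovasz and Simonovits for `l_p` balls cut by signed order cones
-/

set_option autoImplicit false

namespace Pool.Agent.T2H73.LB

open MeasureTheory Set Filter Topology
open scoped ENNReal InnerProductSpace
open Pool.Agent.W695.KH (Eu EV VV Sm)
open Pool.Agent.R972.OP (un vpos un_prob un_int var_eq)
open Pool.Agent.T2H73.SB

variable {n : ℕ}

/-- **isoperimetry** for sets of measure one half -/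
theorem half_sets {p : ℝ} (hp1 : 1 ≤ p) (hn : 1 ≤ n) {R : Fin n × Bool → Fin n × Bool → Prop}
    (hint : (interior (KC p R)).Nonempty) (S : Set (Eu (Fin n))) (hS : un (KC p R) S = 1 / 2) :
    ENNReal.ofReal (kap p * RR p n / 8) ≤ liminf (fun ε : ℝ =>
      (un (KC p R) (Metric.thickening ε S) - un (KC p R) S) / ENNReal.ofReal ε) (𝓝[>] 0) := by
  have hvol := vpos hint
  have hc := KC_compact hp1 R
  have hprob := un_prob hc hvol
  have hκ : 0 < kap p * RR p n := mul_pos (kap_pos hp1) (RR_pos hp1 n)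
  obtain ⟨κ, hκd⟩ : ∃ κ, κ = kap p * RR p n := ⟨_, rfl⟩
  have hl := lcon hp1 hn hint
  rw [← hκd] at hκ hl ⊢
  have key := Pool.Agent.Y429.RG.minkm (Fin n) (un (KC p R)) (2 / κ) (by positivity)
    (fun f L M hf hb h5 => by
      have hfc : Continuous f := hf.diff.continuous
      have e : (∫ x, f x ^ 2 ∂(un (KC p R))) - (∫ x, f x ∂(un (KC p R))) ^ 2 = VV (KC p R) f := by
        rw [un_int, un_int]
        rfl
      rw [e] at h5 ⊢
      rw [un_int]
      exact Pool.Agent.Y665.FF.milb Pool.Agent.Y445.FF.mila' (Fin n) (KC p R) hc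
        (KC_convex hp1 R) hvol (1 / 25) κ (by norm_num) hκ hl f L M hf hb (by linarith)) S hS
  obtain ⟨I, hI⟩ : ∃ I : ℝ≥0∞, I = liminf (fun ε : ℝ => (un (KC p R) (Metric.thickening ε S) -
    un (KC p R) S) / ENNReal.ofReal ε) (𝓝[>] 0) := ⟨_, rfl⟩
  rw [← hI] at key ⊢
  rw [hS] at key
  have h1 : (1 / 2 : ℝ≥0∞) * (1 - 1 / 2) = ENNReal.ofReal (1 / 4) := by
    have h2 : (1 / 2 : ℝ≥0∞) = ENNReal.ofReal (1 / 2) := by
      rw [ENNReal.ofReal_div_of_pos (by norm_num)]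
      norm_num
    rw [h2, ← ENNReal.ofReal_one, ← ENNReal.ofReal_sub _ (by norm_num),
      ← ENNReal.ofReal_mul (by norm_num)]
    norm_num
  rw [h1] at key
  have h3 : ENNReal.ofReal (κ / 8) = ENNReal.ofReal (κ / 2) * ENNReal.ofReal (1 / 4) := by
    rw [← ENNReal.ofReal_mul (by positivity)]
    congr 1
    ring
  rw [h3]
  calc ENNReal.ofReal (κ / 2) * ENNReal.ofReal (1 / 4) ≤
        ENNReal.ofReal (κ / 2) * (ENNReal.ofReal (2 / κ) * I) := mul_le_mul_right key _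
    _ = I := by
        rw [← mul_assoc, ← ENNReal.ofReal_mul (by positivity)]
        have : κ / 2 * (2 / κ) = 1 := by field_simp
        rw [this, ENNReal.ofReal_one, one_mul]

/-- **KLS**, sets of measure one half -/
theorem kls {p : ℝ} (hp1 : 1 ≤ p) : ∃ c : ℝ, 0 < c ∧ ∀ (n : ℕ)
    (R : Fin n × Bool → Fin n × Bool → Prop), 1 ≤ n →
    (interior (KC p R)).Nonempty → ∀ t : ℝ≥0∞,
    (∀ (θ : Eu (Fin n)) (b : ℝ), ‖θ‖ = 1 →
      t * min (un (KC p R) {x | ⟪θ, x⟫_ℝ ≤ b}) (1 - un (KC p R) {x | ⟪θ, x⟫_ℝ ≤ b}) ≤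
      liminf (fun ε : ℝ => (un (KC p R) (Metric.thickening ε {x | ⟪θ, x⟫_ℝ ≤ b}) -
        un (KC p R) {x | ⟪θ, x⟫_ℝ ≤ b}) / ENNReal.ofReal ε) (𝓝[>] 0)) →
    ∀ S : Set (Eu (Fin n)), un (KC p R) S = 1 / 2 →
      ENNReal.ofReal c * t ≤
      liminf (fun ε : ℝ =>
        (un (KC p R) (Metric.thickening ε S) - un (KC p R) S) / ENNReal.ofReal ε) (𝓝[>] 0) := by
  obtain ⟨C, hC, HH⟩ := Pool.Agent.Y211.FF.half
  obtain ⟨e0, he0, hdir⟩ := dir_all hp1
  have hκ := kap_pos hp1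
  refine ⟨kap p / 8 / Real.sqrt (2 * C / e0), by positivity, ?_⟩
  intro n R hn hi t ht S hS
  have hRR := RR_pos hp1 n
  refine le_trans ?_ (half_sets hp1 hn hi S hS)
  have key := half_of hC HH (KC_compact hp1 R) (KC_convex hp1 R) hi
    (v0 := e0 / RR p n ^ 2) (by positivity) (hdir n hn R hi) (a := kap p * RR p n / 8)
    (by positivity) t ht
  have e : kap p * RR p n / 8 / Real.sqrt (2 * C / (e0 / RR p n ^ 2)) =
      kap p / 8 / Real.sqrt (2 * C / e0) := by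
    have h1 : 2 * C / (e0 / RR p n ^ 2) = (2 * C / e0) * RR p n ^ 2 := by field_simp
    rw [h1, Real.sqrt_mul (by positivity), Real.sqrt_sq hRR.le]
    have h2 : 0 < Real.sqrt (2 * C / e0) := by positivity
    field_simp
  rw [e] at key
  exact key

end Pool.Agent.T2H73.LB
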