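import Pool.Agent.R294.OP3.Tru
import Pool.Agent.T2H73.SB.AllB
import Pool.Agent.T2H73.SB.SymB

/-!
# Signed order cones: change of variables, truncated samples
-/

set_option autoImplicit false

namespace Pool.Agent.T2H73.LB

open MeasureTheory Set Filter Topology
open scoped ENNReal InnerProductSpace
open Pool.Agent.R972.OP (pd GH trc)
open Pool.Agent.R294.OP3 (dg hasFDerivAt_coord det_dg psi_exists f_facts sum_sq_le integral_Eu)
open Pool.Agent.W695.KH (Eu)
open Pool.Agent.Y506.RG (EW VW)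
open Pool.Agent.T2H73.SB

variable {n : ℕ}

/-- the signed order polytope on `[-T, T]` -/
def KKB (R : Fin n × Bool → Fin n × Bool → Prop) (T : ℝ) : Set (Fin n → ℝ) :=
  {x | (∀ i, -T ≤ x i ∧ x i ≤ T) ∧ x ∈ CB R}

theorem KKB_closed (R : Fin n × Bool → Fin n × Bool → Prop) (T : ℝ) : IsClosed (KKB R T) := by
  have : KKB R T = (⋂ i, {x : Fin n → ℝ | -T ≤ x i ∧ x i ≤ T}) ∩ CB R := by
    ext x; simp [KKB]
  rw [this]
  refine IsClosed.inter (isClosed_iInter fun i => ?_) (isClosed_CB R)
  exact (isClosed_le continuous_const (continuous_apply i)).inter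
      (isClosed_le (continuous_apply i) continuous_const)

theorem vl_F {F : ℝ → ℝ} (hF : ∀ t, F (-t) = 1 - F t) (x : Fin n → ℝ) (l : Fin n × Bool) :
    vl (fun i => F (x i)) l = F (sv x l) := by
  unfold vl sv sg
  split_ifs with h
  · rw [one_mul]
  · rw [neg_one_mul, hF]

/-- change of variables -/
theorem covB (R : Fin n × Bool → Fin n × Bool → Prop) (h F ψ : ℝ → ℝ) (T m : ℝ) (hm : 0 < m)
    (hpos : ∀ s, 0 < h s) (hmono : StrictMono F) (hF0 : F (-T) = 0) (hF1 : F T = 1)
    (hFe : ∀ t, F (-t) = 1 - F t)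
    (hd : ∀ t, -T ≤ t → t ≤ T → HasDerivAt F (h t / m) t)
    (h1 : ∀ u, F (ψ u) = u) (h2 : ∀ t, ψ (F t) = t) (G : (Fin n → ℝ) → ℝ) :
    ∫ u in OPB R, G (fun i => ψ (u i)) = (m ^ n)⁻¹ * ∫ x in KKB R T, G x * ∏ i, h (x i) := by
  set Φ : (Fin n → ℝ) → (Fin n → ℝ) := fun x i => F (x i) with hΦ
  have himg : Φ '' (KKB R T) = OPB R := by
    ext u
    constructor
    · rintro ⟨x, hx, rfl⟩
      refine ⟨fun i => ⟨?_, ?_⟩, fun l m hlm => ?_⟩
      · rw [← hF0]; exact hmono.monotone (hx.1 i).1
      · rw [← hF1]; exact hmono.monotone (hx.1 i).2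
      · rw [hΦ, vl_F hFe, vl_F hFe]
        exact hmono.monotone (hx.2 l m hlm)
    · intro hu
      have e : Φ (fun i => ψ (u i)) = u := by funext i; exact h1 (u i)
      refine ⟨fun i => ψ (u i), ⟨fun i => ⟨?_, ?_⟩, fun l m hlm => ?_⟩, e⟩
      · rw [← hmono.le_iff_le, h1, hF0]; exact (hu.1 i).1
      · rw [← hmono.le_iff_le, h1, hF1]; exact (hu.1 i).2
      · rw [← hmono.le_iff_le, ← vl_F hFe, ← vl_F hFe]
        have := hu.2 l m hlm
        rw [← e] at this
        exact this
  have hinj : InjOn Φ (KKB R T) := by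
    intro x _ y _ hxy
    funext i
    exact hmono.injective (congrFun hxy i)
  have hder : ∀ x ∈ KKB R T, HasFDerivWithinAt Φ (dg fun i => h (x i) / m) (KKB R T) x := by
    intro x hx
    exact (hasFDerivAt_coord (F := F) (F' := fun t => h t / m)
      fun i => hd (x i) (hx.1 i).1 (hx.1 i).2).hasFDerivWithinAt
  rw [← himg, integral_image_eq_integral_abs_det_fderiv_smul volume
    (KKB_closed R T).measurableSet hder hinj, ← integral_const_mul]
  refine setIntegral_congr_fun (KKB_closed R T).measurableSet ?_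
  intro x hx
  have e1 : (fun i => ψ (Φ x i)) = x := by funext i; exact h2 (x i)
  have e2 : |(dg fun i => h (x i) / m).det| = (m ^ n)⁻¹ * ∏ i, h (x i) := by
    rw [det_dg, abs_of_nonneg (Finset.prod_nonneg fun i _ => (div_pos (hpos _) hm).le),
      Finset.prod_div_distrib, Finset.prod_const, Finset.card_univ, Fintype.card_fin]
    rw [div_eq_mul_inv, mul_comm]
  simp only [e1, e2, smul_eq_mul]
  ring

/-- signed order cone in Euclidean space -/
def CE (R : Fin n × Bool → Fin n × Bool → Prop) : Set (Eu (Fin n)) := {x | WithLp.ofLp x ∈ CB R}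

/-- density of the sample, conditioned on the cone -/
noncomputable def wB (R : Fin n × Bool → Fin n × Bool → Prop) (h : ℝ → ℝ) (x : Eu (Fin n)) : ℝ :=
  (CE R).indicator (fun y => ∏ i, h (y i)) x

theorem integral_wB (R : Fin n × Bool → Fin n × Bool → Prop) (k : ℝ → ℝ) (T : ℝ)
    (v : Eu (Fin n) → ℝ) :
    ∫ x, v x * wB R (trc T k) x =
      ∫ x in KKB R T, v (WithLp.toLp 2 x) * ∏ i, k (x i) := by
  classical
  rw [integral_Eu, ← integral_indicator (KKB_closed R T).measurableSet]
  congr 1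
  funext x
  by_cases hx : x ∈ KKB R T
  · rw [indicator_of_mem hx]
    have h1 : (WithLp.toLp 2 x : Eu (Fin n)) ∈ CE R := hx.2
    have h2 : ∀ i, trc T k (x i) = k (x i) := fun i => by
      unfold trc
      rw [indicator_of_mem]
      exact hx.1 i
    unfold wB
    rw [indicator_of_mem h1]
    congr 1
    exact Finset.prod_congr rfl fun i _ => h2 i
  · rw [indicator_of_notMem hx]
    unfold wB
    by_cases h1 : (WithLp.toLp 2 x : Eu (Fin n)) ∈ CE R
    · rw [indicator_of_mem h1]
      have : ∃ i, ¬ (-T ≤ x i ∧ x i ≤ T) := by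
        by_contra hcon
        push Not at hcon
        exact hx ⟨fun i => ⟨(hcon i).1, (hcon i).2⟩, h1⟩
      obtain ⟨i, hi⟩ := this
      rw [Finset.prod_eq_zero (Finset.mem_univ i), mul_zero]
      unfold trc
      rw [indicator_of_notMem]
      exact hi
    · rw [indicator_of_notMem h1, mul_zero]

end Pool.Agent.T2H73.LB
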