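import Pool.Agent.T2H73.LB.Main
import Pool.Agent.T2H73.SB.FinB
import Pool.Agent.Y445.FF.Mila
import Pool.Agent.Y665.FF.Milb

/-!
# Concentration and the isoperimetric inequality
-/

set_option autoImplicit false

namespace Pool.Agent.T2H73.LB

open MeasureTheory Set Filter Topology ProbabilityTheory
open scoped ENNReal InnerProductSpace
open Pool.Agent.W695.KH (Eu EV VV Sm)
open Pool.Agent.Y506.RG (EW VW Adm VW_shift EW_mono EW_const)
open Pool.Agent.R972.OP (un vpos un_prob un_int un_integrable EV_mono EV_const EV_mul VV_mul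
  var_eq)
open Pool.Agent.T2H73.SB

variable {n : ℕ}

/-- concentration constant -/
noncomputable def kap (p : ℝ) : ℝ := 1 / Real.sqrt (25 * (72 + 4 * p * m2 p))

theorem kap_pos {p : ℝ} (hp1 : 1 ≤ p) : 0 < kap p := by
  have := m2_nonneg p
  unfold kap
  positivity

theorem kap_sq {p : ℝ} (hp1 : 1 ≤ p) : kap p ^ 2 * (72 + 4 * p * m2 p) = 1 / 25 := by
  have h := m2_nonneg p
  have h2 : 0 < 72 + 4 * p * m2 p := by positivity
  unfold kap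
  rw [div_pow, one_pow, Real.sq_sqrt (by positivity)]
  field_simp

theorem lcon {p : ℝ} (hp1 : 1 ≤ p) (hn : 1 ≤ n) {R : Fin n × Bool → Fin n × Bool → Prop}
    (hint : (interior (KC p R)).Nonempty) :
    Pool.Agent.Y506.FF.LCon (KC p R) (kap p * RR p n) (1 / 25) := by
  intro v hv hv1 hvl
  have hp0 : 0 < p := by linarith
  have hrp := rh_prob (n := n) hp1 hn
  have hkp := kp_prob hp1 hint
  obtain ⟨hA, _⟩ := adms hp1 hn R hint
  obtain ⟨k1, k2, k3⟩ := kp_moms hp1 hn hint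
  obtain ⟨s1, s2, s3, s4, s5⟩ := rh_sq (n := n) hp1 hn
  have hN := aN_one hp1 n
  have hR := RR_pos hp1 n
  have hκ := kap_pos hp1
  have hn0 : (0 : ℝ) < n := by exact_mod_cast hn
  have hm20 := m2_nonneg p
  have hnN : (n : ℝ) / aN p n ≤ p := by
    rw [div_le_iff₀ (by linarith)]
    unfold aN
    rw [mul_add, mul_div_cancel₀ _ hp0.ne']
    linarith
  obtain ⟨Y, hY⟩ : ∃ Y, Y = ∫ y, ‖y‖ ^ 2 ∂(kp p R) := ⟨_, rfl⟩
  rw [← hY] at k2
  have hY0 : 0 ≤ Y := hY ▸ integral_nonneg fun y => by positivity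
  obtain ⟨Rr, hRr⟩ : ∃ Rr, Rr = RR p n := ⟨_, rfl⟩
  obtain ⟨κ, hκd⟩ : ∃ κ, κ = kap p := ⟨_, rfl⟩
  obtain ⟨N, hNd⟩ : ∃ N, N = aN p n := ⟨_, rfl⟩
  have hks := kap_sq hp1
  rw [← hκd] at hκ hks
  rw [← hκd, ← hRr] at hvl
  rw [← hRr] at hR s1 s3 s4 s5 k2
  rw [← hNd] at hN s3 hnN
  have hRY : Rr ^ 2 * Y ≤ 2 * (n * m2 p) := by
    rw [le_div_iff₀ (by positivity)] at k2
    linarith
  -- the dilated function
  obtain ⟨v', hv'⟩ : ∃ v' : Eu (Fin n) → ℝ, v' = fun x => v (Rr⁻¹ • x) := ⟨_, rfl⟩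
  have hv'd : ∀ x, v' x = v (Rr⁻¹ • x) := fun x => by rw [hv']
  have hv'c : ContDiff ℝ 1 v' := by
    rw [hv']
    exact hv.comp (contDiff_id.const_smul Rr⁻¹)
  have hv'f : ∀ x, ‖fderiv ℝ v' x‖ ≤ κ := by
    intro x
    have h1 : HasFDerivAt v' ((fderiv ℝ v (Rr⁻¹ • x)).comp
        (Rr⁻¹ • ContinuousLinearMap.id ℝ (Eu (Fin n)))) x := by
      rw [hv']
      exact ((hv.differentiable one_ne_zero) (Rr⁻¹ • x)).hasFDerivAt.comp x
        ((hasFDerivAt_id x).const_smul Rr⁻¹)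
    rw [h1.fderiv, ContinuousLinearMap.comp_smul, ContinuousLinearMap.comp_id, norm_smul,
      norm_inv, Real.norm_eq_abs, abs_of_pos hR]
    calc Rr⁻¹ * ‖fderiv ℝ v (Rr⁻¹ • x)‖ ≤ Rr⁻¹ * (κ * Rr) :=
          mul_le_mul_of_nonneg_left (hvl _) (by positivity)
      _ = κ := by field_simp
  have hpo := poin hp1 R hA hv'c hv'f
  obtain ⟨c, hc⟩ : ∃ c, c = EW (wB R (hp p)) v' := ⟨_, rfl⟩
  have hv'1 : ∀ x, |v' x| ≤ 1 := fun x => by rw [hv'd]; exact hv1 _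
  have hv'm : Measurable v' := hv'c.continuous.measurable
  have i1 : Integrable fun x => v' x * wB R (hp p) x := hA.bdd _ hv'm 1 hv'1
  have i2 : Integrable fun x => v' x ^ 2 * wB R (hp p) x := hA.bdd _ (hv'm.pow_const 2) 1 fun x => by
    rw [abs_pow]
    exact pow_le_one₀ (abs_nonneg _) (hv'1 x)
  have hfdm : Measurable fun x => ‖fderiv ℝ v' x‖ ^ 2 :=
    ((hv'c.continuous_fderiv one_ne_zero).norm.pow 2).measurable
  have hE : EW (wB R (hp p)) (fun x => ‖fderiv ℝ v' x‖ ^ 2) ≤ κ ^ 2 := by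
    have h1 := EW_mono hA (fun x => ‖fderiv ℝ v' x‖ ^ 2) (fun _ => κ ^ 2)
      (hA.bdd _ hfdm (κ ^ 2) fun x => by
        rw [abs_of_nonneg (by positivity)]
        exact pow_le_pow_left₀ (norm_nonneg _) (hv'f x) 2)
      (hA.one.const_mul (κ ^ 2)) (fun x => pow_le_pow_left₀ (norm_nonneg _) (hv'f x) 2)
    rwa [EW_const hA] at h1
  have hsh := VW_shift hA v' i1 i2 c
  rw [← hc, sub_self] at hsh
  have hm3 : Measurable fun x => (v' x - c) ^ 2 := (hv'm.sub_const c).pow_const 2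
  have i3 : Integrable fun x => (v' x - c) ^ 2 * wB R (hp p) x := by
    refine ((i2.add (i1.const_mul (-(2 * c)))).add (hA.one.const_mul (c ^ 2))).congr
      (Eventually.of_forall fun x => ?_)
    simp only [Pi.add_apply]
    ring
  have hP1 : ∫ q : ℝ × Eu (Fin n), (v' (q.1 • q.2) - c) ^ 2 ∂(nu p R) ≤ 36 * κ ^ 2 := by
    rw [← nu_EW hp1 hn hint hm3, hsh]
    have : (0 : ℝ) ^ 2 = 0 := by norm_num
    rw [this, add_zero]
    exact hpo.trans (mul_le_mul_of_nonneg_left hE (by norm_num))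
  have iy2 : Integrable (fun y : Eu (Fin n) => ‖y‖ ^ 2) (kp p R) := kp_int hp1 hint (by fun_prop)
  have j1 : Integrable (fun q : ℝ × Eu (Fin n) => (q.1 - Rr) ^ 2 * ‖q.2‖ ^ 2) (nu p R) :=
    s1.mul_prod iy2
  have hvc : Continuous v := hv.continuous
  have iv : Integrable (fun y : Eu (Fin n) => (v y - c) ^ 2) (kp p R) :=
    kp_int hp1 hint ((hvc.sub continuous_const).pow 2)
  have j2 : Integrable (fun q : ℝ × Eu (Fin n) => (fun _ : ℝ => (1 : ℝ)) q.1 * (v q.2 - c) ^ 2)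
        (nu p R) := (integrable_const (μ := rh p n) (1 : ℝ)).mul_prod iv
  have hK1 : ∫ y, (v y - c) ^ 2 ∂(kp p R) =
      ∫ q : ℝ × Eu (Fin n), (fun _ : ℝ => (1 : ℝ)) q.1 * (v q.2 - c) ^ 2 ∂(nu p R) := by
    unfold nu
    rw [integral_prod_mul (fun _ : ℝ => (1 : ℝ)) (fun y : Eu (Fin n) => (v y - c) ^ 2),
      integral_const, probReal_univ, one_smul, one_mul]
  have hK2 : ∫ q : ℝ × Eu (Fin n), (fun _ : ℝ => (1 : ℝ)) q.1 * (v q.2 - c) ^ 2 ∂(nu p R) ≤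
      ∫ q : ℝ × Eu (Fin n), (2 * (v' (q.1 • q.2) - c) ^ 2 +
        2 * κ ^ 2 * ((q.1 - Rr) ^ 2 * ‖q.2‖ ^ 2)) ∂(nu p R) := by
    refine integral_mono j2 (((nu_int hp1 hn hint hm3 i3).const_mul 2).add
      (j1.const_mul (2 * κ ^ 2))) fun q => ?_
    show 1 * (v q.2 - c) ^ 2 ≤ 2 * (v' (q.1 • q.2) - c) ^ 2 + 2 * κ ^ 2 * ((q.1 - Rr) ^ 2 * ‖q.2‖ ^ 2)
    have h1 := Pool.Agent.Y427.PV.lip_fd v hv (κ * Rr) hvl q.2 (Rr⁻¹ • (q.1 • q.2))
    have h2 : q.2 - Rr⁻¹ • (q.1 • q.2) = (-(Rr⁻¹ * (q.1 - Rr))) • q.2 := by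
      rw [smul_smul, neg_smul, mul_sub, sub_smul, inv_mul_cancel₀ hR.ne', one_smul]
      abel
    rw [h2, norm_smul, norm_neg, mul_pow ‖Rr⁻¹ * (q.1 - Rr)‖, Real.norm_eq_abs, sq_abs,
      ← hv'd] at h1
    have h3 : (κ * Rr) ^ 2 * ((Rr⁻¹ * (q.1 - Rr)) ^ 2 * ‖q.2‖ ^ 2) =
        κ ^ 2 * ((q.1 - Rr) ^ 2 * ‖q.2‖ ^ 2) := by
      field_simp
    rw [h3] at h1
    nlinarith [sq_nonneg ((v q.2 - v' (q.1 • q.2)) - (v' (q.1 • q.2) - c))]
  rw [← hK1, integral_add ((nu_int hp1 hn hint hm3 i3).const_mul 2) (j1.const_mul (2 * κ ^ 2)),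
    integral_const_mul, integral_const_mul] at hK2
  have hK3 : ∫ q : ℝ × Eu (Fin n), (q.1 - Rr) ^ 2 * ‖q.2‖ ^ 2 ∂(nu p R) ≤ 2 * p * m2 p := by
    unfold nu
    rw [integral_prod_mul (fun r : ℝ => (r - Rr) ^ 2) (fun y : Eu (Fin n) => ‖y‖ ^ 2), ← hY]
    calc (∫ r, (r - Rr) ^ 2 ∂(rh p n)) * Y ≤ Rr ^ 2 / N * Y := mul_le_mul_of_nonneg_right s3 hY0
      _ = (Rr ^ 2 * Y) / N := by ring
      _ ≤ (2 * (n * m2 p)) / N := div_le_div_of_nonneg_right hRY (by linarith)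
      _ = 2 * m2 p * (n / N) := by ring
      _ ≤ 2 * m2 p * p := mul_le_mul_of_nonneg_left hnN (by positivity)
      _ = _ := by ring
  -- conclusion
  have hvol := vol_pos hint
  have iv1 : Integrable v (kp p R) := kp_int hp1 hint hvc
  have iv2 : Integrable (fun y => v y ^ 2) (kp p R) := kp_int hp1 hint (hvc.pow 2)
  have e1 : EV (KC p R) v = ∫ y, v y ∂(kp p R) := (un_int _ _).symm
  have e2 : EV (KC p R) (fun y => v y ^ 2) = ∫ y, v y ^ 2 ∂(kp p R) := (un_int _ _).symm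
  have e3 : ∫ y, (v y - c) ^ 2 ∂(kp p R) =
      ∫ y, v y ^ 2 ∂(kp p R) + (-(2 * c)) * ∫ y, v y ∂(kp p R) + c ^ 2 := by
    have h1 : ∀ y, (v y - c) ^ 2 = v y ^ 2 + (-(2 * c)) * v y + c ^ 2 := by intro y; ring
    simp only [h1]
    have j3 : Integrable (fun y => v y ^ 2 + (-(2 * c)) * v y) (kp p R) :=
      iv2.add (iv1.const_mul (-(2 * c)))
    rw [integral_add j3 (integrable_const _), integral_add iv2 (iv1.const_mul (-(2 * c))),
      integral_const_mul, integral_const, probReal_univ, one_smul]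
  unfold VV
  rw [e1, e2]
  have h9 : 2 * κ ^ 2 * ∫ q : ℝ × Eu (Fin n), (q.1 - Rr) ^ 2 * ‖q.2‖ ^ 2 ∂(nu p R) ≤
      2 * κ ^ 2 * (2 * p * m2 p) := mul_le_mul_of_nonneg_left hK3 (by positivity)
  nlinarith [sq_nonneg ((∫ y, v y ∂(kp p R)) - c)]

/-! ### a direction of large variance -/

theorem dir_large {p : ℝ} (hp1 : 1 ≤ p) : ∃ (n0 : ℕ) (e0 : ℝ), 0 < e0 ∧ ∀ (n : ℕ), n0 ≤ n → 1 ≤ n →
    ∀ R : Fin n × Bool → Fin n × Bool → Prop, (interior (KC p R)).Nonempty → ∀ ε : ℝ,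
    (∀ θ : Eu (Fin n), ‖θ‖ = 1 → VV (KC p R) (fun x => ⟪x, θ⟫_ℝ) ≤ ε) → e0 / RR p n ^ 2 ≤ ε := by
  obtain ⟨res, hres0, hres⟩ := res_exists hp1
  obtain ⟨A, hA⟩ : ∃ A, A = (288 * p + 108 * p ^ 2 + 24) * m2 p := ⟨_, rfl⟩
  obtain ⟨n0, hn0⟩ := exists_nat_ge (2 * A / res)
  refine ⟨n0, res / 336, by positivity, fun n hn1 hn R hint ε hε => ?_⟩
  have hnp : (0 : ℝ) < n := by exact_mod_cast hn
  have hvol := vol_pos hint
  have hc := KC_compact hp1 R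
  have hRR := RR_pos hp1 n
  have hkp := kp_prob hp1 hint
  have hε0 : 0 ≤ ε := (VV_nonneg hc hvol _ (by fun_prop)).trans
    (hε (EuclideanSpace.single (⟨0, hn⟩ : Fin n) (1 : ℝ)) (by simp))
  obtain ⟨m, hm1, hm2⟩ := mean_facts hp1 hint
  have key := main_ineq hp1 hn hint hres (ε := ε) m hm2 (fun θ => by
    have h1 := VV_inner_le hε hε0 θ
    have i1 : Integrable (fun y : Eu (Fin n) => ⟪y, θ⟫_ℝ) (kp p R) := kp_int hp1 hint (by fun_prop)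
    have i2 : Integrable (fun y : Eu (Fin n) => ⟪y, θ⟫_ℝ ^ 2) (kp p R) :=
      kp_int hp1 hint (by fun_prop)
    have e1 : EV (KC p R) (fun x => ⟪x, θ⟫_ℝ) = ⟪m, θ⟫_ℝ := by
      rw [← hm1]
      exact (un_int _ _).symm
    have e2 : EV (KC p R) (fun x => ⟪x, θ⟫_ℝ ^ 2) = ∫ y, ⟪y, θ⟫_ℝ ^ 2 ∂(kp p R) :=
      (un_int _ _).symm
    have e3 : ∫ y, ⟪y - m, θ⟫_ℝ ^ 2 ∂(kp p R) =
        ∫ y, ⟪y, θ⟫_ℝ ^ 2 ∂(kp p R) + (-(2 * ⟪m, θ⟫_ℝ)) * ∫ y, ⟪y, θ⟫_ℝ ∂(kp p R) +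
          ⟪m, θ⟫_ℝ ^ 2 := by
      have h1 : ∀ y : Eu (Fin n), ⟪y - m, θ⟫_ℝ ^ 2 =
          ⟪y, θ⟫_ℝ ^ 2 + (-(2 * ⟪m, θ⟫_ℝ)) * ⟪y, θ⟫_ℝ + ⟪m, θ⟫_ℝ ^ 2 := by
        intro y
        rw [inner_sub_left]
        ring
      simp only [h1]
      have j3 : Integrable (fun y : Eu (Fin n) => ⟪y, θ⟫_ℝ ^ 2 + (-(2 * ⟪m, θ⟫_ℝ)) * ⟪y, θ⟫_ℝ)
        (kp p R) := i2.add (i1.const_mul _)
      rw [integral_add j3 (integrable_const _), integral_add i2 (i1.const_mul _),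
        integral_const_mul, integral_const, probReal_univ, one_smul]
    unfold VV at h1
    rw [e1, e2] at h1
    rw [e3, hm1]
    nlinarith)
  rw [← hA] at key
  have h2 : 2 * A ≤ n * res := by
    rw [div_le_iff₀ hres0] at hn0
    have : (n0 : ℝ) ≤ n := by exact_mod_cast hn1
    nlinarith
  have h3 : n * (res / 336) ≤ n * (RR p n ^ 2 * ε) := by nlinarith
  have h4 := le_of_mul_le_mul_left h3 hnp
  rw [div_le_iff₀ (by positivity)]
  linarith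

theorem VV_pos {K : Set (Eu (Fin n))} (hc : IsCompact K) (hi : (interior K).Nonempty)
    {θ : Eu (Fin n)} (hθ : ‖θ‖ = 1) : 0 < VV K fun x => ⟪x, θ⟫_ℝ := by
  have hv := vpos hi
  have hprob := un_prob hc hv
  have hcont : Continuous fun x : Eu (Fin n) => ⟪x, θ⟫_ℝ := by fun_prop
  refine lt_of_le_of_ne (VV_nonneg hc hv _ hcont) fun h => ?_
  rw [← var_eq hc hv _ hcont] at h
  have hm : MemLp (fun x : Eu (Fin n) => ⟪x, θ⟫_ℝ) 2 (un K) := by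
    rw [memLp_two_iff_integrable_sq hcont.aestronglyMeasurable]
    exact un_integrable hc hv _ (hcont.pow 2)
  have h1 : eVar[fun x : Eu (Fin n) => ⟪x, θ⟫_ℝ; un K] = 0 := by
    have h2 := hm.evariance_ne_top
    unfold variance at h
    rcases (ENNReal.toReal_eq_zero_iff _).1 h.symm with h | h
    · exact h
    · exact absurd h h2
  rw [evariance_eq_zero_iff hcont.measurable.aemeasurable] at h1
  obtain ⟨c, hcd⟩ : ∃ c, c = ∫ x, ⟪x, θ⟫_ℝ ∂(un K) := ⟨_, rfl⟩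
  have h2 : ∀ᵐ x ∂(un K), ⟪x, θ⟫_ℝ = c := by
    filter_upwards [h1] with x hx
    rw [hx, hcd]
  have h3 : un K {x | ¬ ⟪x, θ⟫_ℝ = c} = 0 := h2
  have h4 : volume ({x : Eu (Fin n) | ¬ ⟪x, θ⟫_ℝ = c} ∩ interior K) = 0 := by
    unfold un at h3
    rw [Measure.smul_apply, smul_eq_mul, mul_eq_zero] at h3
    rcases h3 with h3 | h3
    · exact absurd h3 (ENNReal.inv_ne_zero.2 hc.measure_lt_top.ne)
    · have hms : MeasurableSet {x : Eu (Fin n) | ¬ ⟪x, θ⟫_ℝ = c} :=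
        (measurableSet_eq_fun hcont.measurable measurable_const).compl
      rw [Measure.restrict_apply hms] at h3
      exact measure_mono_null (inter_subset_inter_right _ interior_subset) h3
  have h5 : IsOpen ({x : Eu (Fin n) | ¬ ⟪x, θ⟫_ℝ = c} ∩ interior K) :=
    (isOpen_ne_fun hcont continuous_const).inter isOpen_interior
  have h6 := (h5.measure_eq_zero_iff (μ := (volume : Measure (Eu (Fin n))))).1 h4
  obtain ⟨z, hz⟩ := hi
  have h7 : ∀ y ∈ interior K, ⟪y, θ⟫_ℝ = c := by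
    intro y hy
    by_contra hne
    have : y ∈ ({x : Eu (Fin n) | ¬ ⟪x, θ⟫_ℝ = c} ∩ interior K) := ⟨hne, hy⟩
    rw [h6] at this
    exact this
  obtain ⟨δ, hδ, hball⟩ := Metric.isOpen_iff.1 isOpen_interior z hz
  have h8 := h7 z hz
  have h9 := h7 (z + (δ / 2) • θ) (hball (by
    rw [Metric.mem_ball, dist_eq_norm, add_sub_cancel_left, norm_smul, hθ, mul_one,
      Real.norm_eq_abs, abs_of_pos (by positivity)]
    linarith))
  rw [inner_add_left, real_inner_smul_left, real_inner_self_eq_norm_sq, hθ, h8] at h9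
  nlinarith

theorem dir_fixed {p : ℝ} (hp1 : 1 ≤ p) (n : ℕ) (hn : 1 ≤ n) : ∃ e : ℝ, 0 < e ∧
    ∀ R : Fin n × Bool → Fin n × Bool → Prop, (interior (KC p R)).Nonempty → ∀ ε : ℝ,
    (∀ θ : Eu (Fin n), ‖θ‖ = 1 → VV (KC p R) (fun x => ⟪x, θ⟫_ℝ) ≤ ε) → e / RR p n ^ 2 ≤ ε := by
  classical
  have hRR := RR_pos hp1 n
  obtain ⟨θ, hθd⟩ : ∃ θ : Eu (Fin n), θ = EuclideanSpace.single (⟨0, hn⟩ : Fin n) (1 : ℝ) :=
    ⟨_, rfl⟩
  have hθ : ‖θ‖ = 1 := by rw [hθd]; simp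
  let f : (Fin n × Bool → Fin n × Bool → Prop) → ℝ := fun R =>
    if (interior (KC p R)).Nonempty then VV (KC p R) (fun x => ⟪x, θ⟫_ℝ) else 1
  have hf : ∀ R, 0 < f R := by
    intro R
    by_cases h : (interior (KC p R)).Nonempty
    · simp only [f, if_pos h]
      exact VV_pos (KC_compact hp1 R) h hθ
    · simp only [f, if_neg h]
      norm_num
  obtain ⟨R0, hR0⟩ := Finite.exists_min f
  refine ⟨f R0 * RR p n ^ 2, mul_pos (hf R0) (by positivity), fun R hint ε hε => ?_⟩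
  rw [mul_div_assoc, div_self (by positivity), mul_one]
  refine (hR0 R).trans ?_
  simp only [f, if_pos hint]
  exact hε θ hθ

theorem min_pos (P : ℕ → ℝ → Prop) (hmono : ∀ n a b, b ≤ a → P n a → P n b)
    (h : ∀ n, ∃ e : ℝ, 0 < e ∧ P n e) (N : ℕ) : ∃ e : ℝ, 0 < e ∧ ∀ n < N, P n e := by
  induction N with
  | zero => exact ⟨1, one_pos, fun n hn => absurd hn (by omega)⟩
  | succ N ih =>
    obtain ⟨e1, h1, h2⟩ := ih
    obtain ⟨e2, h3, h4⟩ := h N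
    refine ⟨min e1 e2, lt_min h1 h3, fun n hn => ?_⟩
    rcases Nat.lt_succ_iff_lt_or_eq.1 hn with h | h
    · exact hmono n _ _ (min_le_left _ _) (h2 n h)
    · subst h
      exact hmono _ _ _ (min_le_right _ _) h4

theorem dir_all {p : ℝ} (hp1 : 1 ≤ p) : ∃ e0 : ℝ, 0 < e0 ∧ ∀ (n : ℕ), 1 ≤ n →
    ∀ R : Fin n × Bool → Fin n × Bool → Prop, (interior (KC p R)).Nonempty → ∀ ε : ℝ,
    (∀ θ : Eu (Fin n), ‖θ‖ = 1 → VV (KC p R) (fun x => ⟪x, θ⟫_ℝ) ≤ ε) → e0 / RR p n ^ 2 ≤ ε := by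
  obtain ⟨n0, e0, h0, h1⟩ := dir_large hp1
  obtain ⟨e1, h2, h3⟩ := min_pos (fun n e => 1 ≤ n →
    ∀ R : Fin n × Bool → Fin n × Bool → Prop, (interior (KC p R)).Nonempty → ∀ ε : ℝ,
    (∀ θ : Eu (Fin n), ‖θ‖ = 1 → VV (KC p R) (fun x => ⟪x, θ⟫_ℝ) ≤ ε) → e / RR p n ^ 2 ≤ ε)
    (fun n a b hab h hn R hi ε hε => (div_le_div_of_nonneg_right hab (by positivity)).trans
      (h hn R hi ε hε))
    (fun n => by
      by_cases hn : 1 ≤ n
      · obtain ⟨e, he, h⟩ := dir_fixed hp1 n hn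
        exact ⟨e, he, fun _ => h⟩
      · exact ⟨1, one_pos, fun h => absurd h hn⟩) n0
  refine ⟨min e0 e1, lt_min h0 h2, fun n hn R hi ε hε => ?_⟩
  rcases lt_or_ge n n0 with h | h
  · exact (div_le_div_of_nonneg_right (min_le_right _ _) (by positivity)).trans
      (h3 n h hn R hi ε hε)
  · exact (div_le_div_of_nonneg_right (min_le_left _ _) (by positivity)).trans
      (h1 n h hn R hi ε hε)

end Pool.Agent.T2H73.LB
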