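import Pool.Agent.T2H73.LB.Tru
import Pool.Agent.Y506.RG.Wt

/-!
# Signed order cones: Poincare's inequality for samples
-/

set_option autoImplicit false

namespace Pool.Agent.T2H73.LB

open MeasureTheory Set Filter Topology
open scoped ENNReal InnerProductSpace
open Pool.Agent.R972.OP (trc)
open Pool.Agent.W695.KH (Eu)
open Pool.Agent.Y506.RG (EW VW Adm)
open Pool.Agent.T2H73.SB

variable {n : ℕ}

theorem ms_co (i : Fin n) : Measurable fun x : Eu (Fin n) => x i :=
  Continuous.measurable (by fun_prop)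

theorem closed_CE (R : Fin n × Bool → Fin n × Bool → Prop) : IsClosed (CE R) :=
  (isClosed_CB R).preimage (PiLp.continuous_ofLp 2 _)

theorem ms_wB (R : Fin n × Bool → Fin n × Bool → Prop) {f : ℝ → ℝ} (hf : Measurable f) :
    Measurable (wB R f) := by
  refine Measurable.indicator ?_ (closed_CE R).measurableSet
  exact Finset.measurable_prod _ fun i _ => hf.comp (ms_co i)

theorem wB_nonneg (R : Fin n × Bool → Fin n × Bool → Prop) {f : ℝ → ℝ} (h0 : ∀ s, 0 ≤ f s)
    (x : Eu (Fin n)) : 0 ≤ wB R f x :=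
  Set.indicator_nonneg (fun y _ => Finset.prod_nonneg fun i _ => h0 (y i)) x

theorem trc_nonneg {f : ℝ → ℝ} (h0 : ∀ s, 0 ≤ f s) (T s : ℝ) : 0 ≤ trc T f s :=
  Set.indicator_nonneg (fun s _ => h0 s) s

theorem trc_le {f : ℝ → ℝ} (h0 : ∀ s, 0 ≤ f s) (T s : ℝ) : trc T f s ≤ f s :=
  Set.indicator_le_self' (fun s _ => h0 s) s

theorem wB_trc_le (R : Fin n × Bool → Fin n × Bool → Prop) {f : ℝ → ℝ} (h0 : ∀ s, 0 ≤ f s) (T : ℝ)
    (x : Eu (Fin n)) : |wB R (trc T f) x| ≤ wB R f x := by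
  rw [abs_of_nonneg (wB_nonneg R (trc_nonneg h0 T) x)]
  unfold wB
  by_cases hx : x ∈ CE R
  · rw [indicator_of_mem hx, indicator_of_mem hx]
    exact Finset.prod_le_prod (fun i _ => trc_nonneg h0 T _) fun i _ => trc_le h0 T _
  · rw [indicator_of_notMem hx, indicator_of_notMem hx]

theorem conv {f : ℝ → ℝ} (h0 : ∀ s, 0 ≤ f s) (hm : Measurable f)
    (R : Fin n × Bool → Fin n × Bool → Prop) (hA : Adm (wB R f)) {v : Eu (Fin n) → ℝ}
    (hv : Measurable v) {B : ℝ} (hB : ∀ x, |v x| ≤ B * (1 + ‖x‖ ^ 2)) :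
    Tendsto (fun k : ℕ => ∫ x, v x * wB R (trc ((k : ℝ) + 1) f) x) atTop
      (𝓝 (∫ x, v x * wB R f x)) := by
  refine tendsto_integral_of_dominated_convergence (fun x => B * ((1 + ‖x‖ ^ 2) * wB R f x))
    ?_ ?_ ?_ ?_
  · intro k
    exact (hv.mul (ms_wB R (hm.indicator measurableSet_Icc))).aestronglyMeasurable
  · exact hA.int.const_mul B
  · intro k
    refine Eventually.of_forall fun x => ?_
    rw [Real.norm_eq_abs, abs_mul, ← mul_assoc]
    exact mul_le_mul (hB x) (wB_trc_le R h0 _ x) (abs_nonneg _) ((abs_nonneg _).trans (hB x))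
  · refine Eventually.of_forall fun x => ?_
    refine tendsto_const_nhds.congr' ?_
    obtain ⟨N, hN⟩ := exists_nat_ge (∑ i, |x i|)
    filter_upwards [eventually_ge_atTop N] with k hk
    have h1 : ∀ i, trc ((k : ℝ) + 1) f (x i) = f (x i) := by
      intro i
      have h2 : |x i| ≤ ∑ j, |x j| :=
        Finset.single_le_sum (f := fun j => |x j|) (fun j _ => abs_nonneg _) (Finset.mem_univ i)
      have h3 : (N : ℝ) ≤ k := by exact_mod_cast hk
      have h4 : |x i| ≤ (k : ℝ) + 1 := by linarith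
      exact Set.indicator_of_mem (Set.mem_Icc.2 (abs_le.1 h4)) _
    have h5 : wB R (trc ((k : ℝ) + 1) f) x = wB R f x := by
      by_cases hx : x ∈ CE R
      · simp only [wB, Set.indicator_of_mem hx, h1]
      · simp only [wB, Set.indicator_of_notMem hx]
    rw [h5]

theorem convE {f : ℝ → ℝ} (h0 : ∀ s, 0 ≤ f s) (hm : Measurable f)
    (R : Fin n × Bool → Fin n × Bool → Prop) (hA : Adm (wB R f)) {v : Eu (Fin n) → ℝ}
    (hv : Measurable v) {B : ℝ} (hB : ∀ x, |v x| ≤ B * (1 + ‖x‖ ^ 2)) :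
    Tendsto (fun k : ℕ => EW (wB R (trc ((k : ℝ) + 1) f)) v) atTop (𝓝 (EW (wB R f) v)) := by
  have h1 : Tendsto (fun k : ℕ => ∫ x : Eu (Fin n), wB R (trc ((k : ℝ) + 1) f) x) atTop
      (𝓝 (∫ x, wB R f x)) := by
    have h := conv h0 hm R hA (v := fun _ => 1) measurable_const (B := 1) (fun x => by
      rw [abs_one, one_mul]
      nlinarith [sq_nonneg ‖x‖])
    simpa using h
  exact (conv h0 hm R hA hv hB).div h1 hA.pos.ne'

/-- **Poincare's inequality for samples in signed order cones** -/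
theorem poinB {f : ℝ → ℝ} {C : ℝ} (hC0 : 0 ≤ C) (hev : ∀ s, f (-s) = f s) (hpos : ∀ s, 0 < f s)
    (hcont : Continuous f)
    (hb : ∀ T : ℝ, 0 < T → ∀ t, |t| ≤ T → (∫ s in (-T)..t, f s) * (∫ s in t..T, f s) ≤
      C * f t * ∫ s in (-T)..T, f s)
    (R : Fin n × Bool → Fin n × Bool → Prop) (hA : Adm (wB R f)) {g : Eu (Fin n) → ℝ}
    (hg : ContDiff ℝ 1 g) {L : ℝ} (hL : ∀ x, ‖fderiv ℝ g x‖ ≤ L) :
    VW (wB R f) g ≤ 4 * C ^ 2 * EW (wB R f) fun x => ‖fderiv ℝ g x‖ ^ 2 := by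
  have h0 : ∀ s, 0 ≤ f s := fun s => (hpos s).le
  have hm : Measurable f := hcont.measurable
  have hgc : Measurable g := hg.continuous.measurable
  have hL0 : 0 ≤ L := (norm_nonneg _).trans (hL 0)
  have hdc : Measurable fun x => ‖fderiv ℝ g x‖ ^ 2 :=
    ((hg.continuous_fderiv one_ne_zero).norm.pow 2).measurable
  have hlip : ∀ x, |g x| ≤ |g 0| + L * ‖x‖ := by
    intro x
    have h := (convex_univ (𝕜 := ℝ) (E := Eu (Fin n))).norm_image_sub_le_of_norm_fderiv_le
      (fun x _ => (hg.differentiable one_ne_zero) x) (fun x _ => hL x) (mem_univ 0) (mem_univ x)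
    rw [sub_zero, Real.norm_eq_abs] at h
    have := abs_sub_abs_le_abs_sub (g x) (g 0)
    linarith
  obtain ⟨a, ha⟩ : ∃ a, a = |g 0| := ⟨_, rfl⟩
  rw [← ha] at hlip
  have ha0 : 0 ≤ a := ha ▸ abs_nonneg _
  have e1 := convE h0 hm R hA hgc (B := a + L) (fun x => (hlip x).trans (by
    nlinarith [sq_nonneg (‖x‖ - 1), norm_nonneg x, mul_nonneg ha0 (sq_nonneg ‖x‖),
      mul_nonneg hL0 (sq_nonneg (‖x‖ - 1)), mul_nonneg hL0 (sq_nonneg ‖x‖)]))
  have e2 := convE h0 hm R hA (v := fun x => g x ^ 2) (hgc.pow_const 2) (B := 2 * (a ^ 2 + L ^ 2))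
    (fun x => by
      rw [abs_pow]
      refine (pow_le_pow_left₀ (abs_nonneg _) (hlip x) 2).trans ?_
      nlinarith [sq_nonneg (a - L * ‖x‖), mul_nonneg (sq_nonneg a) (sq_nonneg ‖x‖), sq_nonneg L])
  have e3 := convE h0 hm R hA hdc (B := L ^ 2)
    (fun x => by
      rw [abs_of_nonneg (by positivity)]
      refine (pow_le_pow_left₀ (norm_nonneg _) (hL x) 2).trans ?_
      nlinarith [mul_nonneg (sq_nonneg L) (sq_nonneg ‖x‖)])
  refine le_of_tendsto_of_tendsto' (e2.sub (e1.pow 2)) (e3.const_mul (4 * C ^ 2)) fun k => ?_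
  have hT : (0 : ℝ) < (k : ℝ) + 1 := by positivity
  exact truB R f ((k : ℝ) + 1) C hev hpos hcont hT hC0 (hb _ hT) g hg

/-- tails -/
theorem hb_of {f : ℝ → ℝ} {C : ℝ} (hev : ∀ s, f (-s) = f s) (hpos : ∀ s, 0 < f s)
    (hcont : Continuous f) (hC : ∀ t T : ℝ, 0 ≤ t → t ≤ T → ∫ s in t..T, f s ≤ C * f t) :
    ∀ T : ℝ, 0 < T → ∀ t, |t| ≤ T → (∫ s in (-T)..t, f s) * (∫ s in t..T, f s) ≤
      C * f t * ∫ s in (-T)..T, f s := by
  have key : ∀ T : ℝ, 0 < T → ∀ t, 0 ≤ t → t ≤ T →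
      (∫ s in (-T)..t, f s) * (∫ s in t..T, f s) ≤ C * f t * ∫ s in (-T)..T, f s := by
    intro T hT t h0 ht
    have hi : ∀ a b : ℝ, IntervalIntegrable f volume a b := fun a b => hcont.intervalIntegrable a b
    have hn : ∀ a b : ℝ, a ≤ b → 0 ≤ ∫ s in a..b, f s := fun a b h =>
      intervalIntegral.integral_nonneg h fun s _ => (hpos s).le
    have hsum : (∫ s in (-T)..t, f s) + ∫ s in t..T, f s = ∫ s in (-T)..T, f s :=
      intervalIntegral.integral_add_adjacent_intervals (hi _ _) (hi _ _)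
    have h1 := hC t T h0 ht
    have h2 : ∫ s in (-T)..t, f s ≤ ∫ s in (-T)..T, f s := by
      have := hn t T ht
      linarith
    calc (∫ s in (-T)..t, f s) * (∫ s in t..T, f s)
        ≤ (∫ s in (-T)..T, f s) * (C * f t) :=
          mul_le_mul h2 h1 (hn _ _ ht) (hn _ _ (by linarith))
      _ = _ := by ring
  intro T hT t ht
  have hab := abs_le.1 ht
  rcases le_total 0 t with h | h
  · exact key T hT t h hab.2
  · have h1 := key T hT (-t) (by linarith) (by linarith)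
    have hcn : ∀ a b : ℝ, ∫ s in (-b)..(-a), f s = ∫ s in a..b, f s := by
      intro a b
      rw [← intervalIntegral.integral_comp_neg]
      exact intervalIntegral.integral_congr fun s _ => hev s
    have e1 : ∫ s in (-T)..(-t), f s = ∫ s in t..T, f s := hcn t T
    have e2 : ∫ s in (-t)..T, f s = ∫ s in (-T)..t, f s := by
      have := hcn (-t) T
      rw [neg_neg] at this
      exact this.symm
    rw [e1, e2, hev] at h1
    linarith

end Pool.Agent.T2H73.LB
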