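import Pool.Agent.T2H73.LB.Map

/-!
# The main inequality: a lower bound for the directional variances
-/

set_option autoImplicit false

namespace Pool.Agent.T2H73.LB

open MeasureTheory Set Filter Topology ProbabilityTheory
open scoped ENNReal InnerProductSpace
open Pool.Agent.W695.KH (Eu)
open Pool.Agent.Y506.RG (EW VW Adm VW_shift EW_mono)
open Pool.Agent.T2H73.SB

variable {n : ℕ}

/-- the test function -/
noncomputable def gf (a : Eu (Fin n)) (x : Eu (Fin n)) : ℝ := ∑ i, (Real.cos (x i) - a i * x i)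

/-- its gradient -/
noncomputable def gg (a x : Eu (Fin n)) : Eu (Fin n) := WithLp.toLp 2 fun i => -Real.sin (x i) - a i

theorem gf_hd (a x : Eu (Fin n)) : HasFDerivAt (gf a) (innerSL ℝ (gg a x)) x := by
  have h1 : ∀ i : Fin n, HasFDerivAt (fun x : Eu (Fin n) => x i)
      (EuclideanSpace.proj i : Eu (Fin n) →L[ℝ] ℝ) x := fun i =>
    (EuclideanSpace.proj (𝕜 := ℝ) i : Eu (Fin n) →L[ℝ] ℝ).hasFDerivAt
  have h2 : HasFDerivAt (gf a) (∑ i, (-Real.sin (x i) • (EuclideanSpace.proj i : Eu (Fin n) →L[ℝ] ℝ)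
      - a i • (EuclideanSpace.proj i : Eu (Fin n) →L[ℝ] ℝ))) x := by
    unfold gf
    refine HasFDerivAt.fun_sum fun i _ => ?_
    exact ((h1 i).cos).sub ((h1 i).const_mul (a i))
  have h3 : (∑ i, (-Real.sin (x i) • (EuclideanSpace.proj i : Eu (Fin n) →L[ℝ] ℝ)
      - a i • (EuclideanSpace.proj i : Eu (Fin n) →L[ℝ] ℝ))) = innerSL ℝ (gg a x) := by
    ext z
    rw [ContinuousLinearMap.sum_apply, innerSL_apply_apply, PiLp.inner_apply]
    refine Finset.sum_congr rfl fun i _ => ?_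
    simp only [gg, ContinuousLinearMap.sub_apply, ContinuousLinearMap.smul_apply,
      PiLp.proj_apply, smul_eq_mul, RCLike.inner_apply, conj_trivial]
    ring
  rw [← h3]
  exact h2

theorem gf_cd (a : Eu (Fin n)) : ContDiff ℝ 1 (gf a) := by
  unfold gf
  refine ContDiff.sum fun i _ => ?_
  have h1 : ContDiff ℝ 1 fun x : Eu (Fin n) => x i :=
    (EuclideanSpace.proj (𝕜 := ℝ) i : Eu (Fin n) →L[ℝ] ℝ).contDiff
  exact (Real.contDiff_cos.comp h1).sub (contDiff_const.mul h1)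

theorem gf_norm (a x : Eu (Fin n)) :
    ‖fderiv ℝ (gf a) x‖ ^ 2 = ∑ i, (-Real.sin (x i) - a i) ^ 2 := by
  rw [(gf_hd a x).fderiv, innerSL_apply_norm, EuclideanSpace.norm_sq_eq]
  refine Finset.sum_congr rfl fun i _ => ?_
  rw [Real.norm_eq_abs, sq_abs]
  rfl

theorem inner_sum (x a : Eu (Fin n)) : ⟪x, a⟫_ℝ = ∑ i, a i * x i := by
  rw [PiLp.inner_apply]
  refine Finset.sum_congr rfl fun i _ => ?_
  simp

/-- mean of the uniform measure -/
theorem mean_facts {p : ℝ} (hp1 : 1 ≤ p) {R : Fin n × Bool → Fin n × Bool → Prop}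
    (hint : (interior (KC p R)).Nonempty) : ∃ m : Eu (Fin n),
    (∀ θ, ∫ y, ⟪y, θ⟫_ℝ ∂(kp p R) = ⟪m, θ⟫_ℝ) ∧ ‖m‖ ^ 2 ≤ ∫ y, ‖y‖ ^ 2 ∂(kp p R) := by
  have hkp := kp_prob hp1 hint
  have hid : Integrable (fun y : Eu (Fin n) => y) (kp p R) := by
    have h := kp_int hp1 hint (continuous_norm (E := Eu (Fin n)))
    exact (integrable_norm_iff (by fun_prop)).1 h
  refine ⟨∫ y, y ∂(kp p R), fun θ => ?_, ?_⟩
  · have h := integral_inner (𝕜 := ℝ) hid θ
    rw [real_inner_comm, ← h]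
    refine integral_congr_ae (Eventually.of_forall fun y => ?_)
    exact real_inner_comm _ _
  · obtain ⟨m, hm⟩ : ∃ m : Eu (Fin n), m = ∫ y, y ∂(kp p R) := ⟨_, rfl⟩
    rw [← hm]
    have h := integral_inner (𝕜 := ℝ) hid m
    rw [← hm, real_inner_self_eq_norm_sq] at h
    have i1 : Integrable (fun y : Eu (Fin n) => ⟪m, y⟫_ℝ) (kp p R) :=
      kp_int hp1 hint (by fun_prop)
    have i2 : Integrable (fun y : Eu (Fin n) => ‖y‖ ^ 2) (kp p R) :=
      kp_int hp1 hint (by fun_prop)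
    have h2 : ∫ y, ⟪m, y⟫_ℝ ∂(kp p R) ≤ ∫ y, (‖y‖ ^ 2 / 2 + ‖m‖ ^ 2 / 2) ∂(kp p R) := by
      refine integral_mono i1 ((i2.div_const 2).add (integrable_const _)) fun y => ?_
      have h3 := real_inner_le_norm m y
      have h4 : 0 ≤ (‖m‖ - ‖y‖) ^ 2 := sq_nonneg _
      show ⟪m, y⟫_ℝ ≤ ‖y‖ ^ 2 / 2 + ‖m‖ ^ 2 / 2
      nlinarith
    rw [integral_add (i2.div_const 2) (integrable_const _), integral_div, integral_const,
      probReal_univ, one_smul, h] at h2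
    linarith

set_option maxHeartbeats 4000000 in
/-- **the main inequality** -/
theorem main_ineq {p : ℝ} (hp1 : 1 ≤ p) (hn : 1 ≤ n) {R : Fin n × Bool → Fin n × Bool → Prop}
    (hint : (interior (KC p R)).Nonempty) {res : ℝ}
    (hres : ∀ b : ℝ, res ≤ Var[fun s : ℝ => Real.cos s - b * |s| ^ p; gm p]) {ε : ℝ} (m : Eu (Fin n))
    (hm : ‖m‖ ^ 2 ≤ ∫ y, ‖y‖ ^ 2 ∂(kp p R))
    (hε : ∀ θ : Eu (Fin n), ∫ y, ⟪y - m, θ⟫_ℝ ^ 2 ∂(kp p R) ≤ ε * ‖θ‖ ^ 2) :
    n * res ≤ (288 * p + 108 * p ^ 2 + 24) * m2 p + 168 * (n * (RR p n ^ 2 * ε)) := by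
  have hp0 : 0 < p := by linarith
  have hrp := rh_prob (n := n) hp1 hn
  have hkp := kp_prob hp1 hint
  obtain ⟨hA, _⟩ := adms hp1 hn R hint
  obtain ⟨k1, k2, k3⟩ := kp_moms hp1 hn hint
  obtain ⟨z1, z2, z3, z4⟩ := rh_moms (n := n) hp1 hn
  obtain ⟨s1, s2, s3, s4, s5⟩ := rh_sq (n := n) hp1 hn
  have hN := aN_one hp1 n
  have hR := RR_pos hp1 n
  have hRp := RR_pow hp1 n
  have hRd : RR p n = aN p n ^ (1 / p) := rfl
  have hnN : (n : ℝ) / aN p n ≤ p := by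
    rw [div_le_iff₀ (by linarith)]
    unfold aN
    rw [mul_add, mul_div_cancel₀ _ hp0.ne']
    linarith
  obtain ⟨N, hNd⟩ : ∃ N, N = aN p n := ⟨_, rfl⟩
  obtain ⟨Rr, hRr⟩ : ∃ Rr, Rr = RR p n := ⟨_, rfl⟩
  rw [← hNd] at hN hnN hRp hRd z1 z2 z3 z4 s3 k3
  rw [← hRr] at hR hRp hRd s1 s3 s4 s5 k2 ⊢
  have hn0 : (0 : ℝ) < n := by exact_mod_cast hn
  have hm20 := m2_nonneg p
  have hN0 : (0 : ℝ) < N := by linarith
  -- the second moment of the body
  obtain ⟨Y, hY⟩ : ∃ Y, Y = ∫ y, ‖y‖ ^ 2 ∂(kp p R) := ⟨_, rfl⟩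
  rw [← hY] at k1 k2 hm
  have hY0 : 0 ≤ Y := hY ▸ integral_nonneg fun y => by positivity
  have hRY : Rr ^ 2 * Y ≤ 2 * (n * m2 p) := by
    rw [le_div_iff₀ (by positivity)] at k2
    linarith
  -- distance to the mean
  have hdist : ∫ y, ‖y - m‖ ^ 2 ∂(kp p R) ≤ n * ε := by
    have e1 : ∀ y : Eu (Fin n), ‖y - m‖ ^ 2 =
        ∑ i, ⟪y - m, EuclideanSpace.single i (1 : ℝ)⟫_ℝ ^ 2 := by
      intro y
      rw [EuclideanSpace.norm_sq_eq]
      refine Finset.sum_congr rfl fun i _ => ?_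
      rw [EuclideanSpace.inner_single_right, Real.norm_eq_abs, sq_abs]
      simp
    simp only [e1]
    rw [integral_finsetSum]
    · calc ∑ i : Fin n, ∫ y, ⟪y - m, EuclideanSpace.single i (1 : ℝ)⟫_ℝ ^ 2 ∂(kp p R)
          ≤ ∑ _i : Fin n, ε := by
            refine Finset.sum_le_sum fun i _ => (hε _).trans (le_of_eq ?_)
            simp
        _ = n * ε := by simp
    · intro i _
      exact kp_int hp1 hint (by fun_prop)
  -- the data
  obtain ⟨a, ha⟩ : ∃ a : Eu (Fin n), a = WithLp.toLp 2 fun i => -Real.sin (Rr * m i) := ⟨_, rfl⟩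
  have hai : ∀ i, a i = -Real.sin (Rr * m i) := fun i => by rw [ha]
  have hanorm : ‖a‖ ^ 2 ≤ n := by
    rw [EuclideanSpace.norm_sq_eq]
    calc ∑ i, ‖a i‖ ^ 2 ≤ ∑ _i : Fin n, (1 : ℝ) := by
          refine Finset.sum_le_sum fun i _ => ?_
          rw [hai, Real.norm_eq_abs, abs_neg]
          exact pow_le_one₀ (abs_nonneg _) (Real.abs_sin_le_one _)
      _ = n := by simp
  obtain ⟨β, hβ⟩ : ∃ β, β = Rr * ⟪m, a⟫_ℝ := ⟨_, rfl⟩
  have hβ2 : β ^ 2 ≤ 2 * n ^ 2 * m2 p := by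
    have h1 : ⟪m, a⟫_ℝ ^ 2 ≤ ‖m‖ ^ 2 * ‖a‖ ^ 2 := by
      rw [← mul_pow, ← sq_abs]
      exact pow_le_pow_left₀ (abs_nonneg _) (abs_real_inner_le_norm _ _) 2
    have h2 : ‖m‖ ^ 2 * ‖a‖ ^ 2 ≤ Y * n :=
      mul_le_mul hm hanorm (by positivity) hY0
    calc β ^ 2 = Rr ^ 2 * ⟪m, a⟫_ℝ ^ 2 := by rw [hβ]; ring
      _ ≤ Rr ^ 2 * (Y * n) := mul_le_mul_of_nonneg_left (h1.trans h2) (by positivity)
      _ = (Rr ^ 2 * Y) * n := by ring
      _ ≤ (2 * (n * m2 p)) * n := mul_le_mul_of_nonneg_right hRY hn0.le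
      _ = _ := by ring
  obtain ⟨b, hb⟩ : ∃ b, b = β / (p * N) := ⟨_, rfl⟩
  obtain ⟨c1, hc1⟩ : ∃ c1, c1 = EW (wB R (hp p)) (gf a) := ⟨_, rfl⟩
  obtain ⟨c2, hc2⟩ : ∃ c2, c2 = β * (1 - 1 / p) := ⟨_, rfl⟩
  -- the lower bound
  have hlow := var_low (n := n) hp1 R hA (f := fun s : ℝ => Real.cos s - b * |s| ^ p)
    (fun s => by rw [Real.cos_neg, abs_neg])
    ((memc hp1).sub ((memp hp1 hp0.le).const_mul b)) (c1 + c2)
  have hlow2 : n * res ≤ EW (wB R (hp p)) fun x =>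
      (∑ i, (Real.cos (x i) - b * |x i| ^ p) - (c1 + c2)) ^ 2 :=
    (mul_le_mul_of_nonneg_left (hres b) hn0.le).trans hlow
  have hspc := sp_cont (n := n) hp1
  have hGc : Continuous fun x : Eu (Fin n) =>
      (∑ i, (Real.cos (x i) - b * |x i| ^ p) - (c1 + c2)) ^ 2 := by
    refine Continuous.pow (Continuous.sub (continuous_finsetSum _ fun i _ => ?_) continuous_const) 2
    exact (Real.continuous_cos.comp (by fun_prop : Continuous fun x : Eu (Fin n) => x i)).sub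
      (continuous_const.mul ((cont_ap hp1).comp (by fun_prop : Continuous fun x : Eu (Fin n) => x i)))
  rw [nu_EW hp1 hn hint hGc.measurable] at hlow2
  -- the smooth part
  have hgc := gf_cd a
  have hgcont : Continuous (gf a) := hgc.continuous
  have hgb : ∀ x, ‖fderiv ℝ (gf a) x‖ ≤ 2 * Real.sqrt n := by
    intro x
    have h1 : ‖fderiv ℝ (gf a) x‖ ^ 2 ≤ (2 * Real.sqrt n) ^ 2 := by
      rw [gf_norm, mul_pow, Real.sq_sqrt hn0.le]
      calc ∑ i, (-Real.sin (x i) - a i) ^ 2 ≤ ∑ _i : Fin n, (2 : ℝ) ^ 2 := by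
            refine Finset.sum_le_sum fun i _ => ?_
            rw [hai]
            apply sq_le_sq'
            · have h1 := Real.sin_le_one (x i)
              have h2 := Real.neg_one_le_sin (Rr * m i)
              linarith
            · have h1 := Real.neg_one_le_sin (x i)
              have h2 := Real.sin_le_one (Rr * m i)
              linarith
        _ = 2 ^ 2 * n := by simp; ring
    exact (abs_le_of_sq_le_sq' h1 (by positivity)).2
  have hpo := poin hp1 R hA hgc hgb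
  have hglin : ∀ x, |gf a x| ≤ n + n * (1 + ‖x‖ ^ 2) := by
    intro x
    unfold gf
    refine (Finset.abs_sum_le_sum_abs _ _).trans ?_
    calc ∑ i, |Real.cos (x i) - a i * x i| ≤ ∑ _i : Fin n, (1 + (1 + ‖x‖ ^ 2)) := by
          refine Finset.sum_le_sum fun i _ => ?_
          have h1 := Real.abs_cos_le_one (x i)
          have h2 : |a i| ≤ 1 := by rw [hai, abs_neg]; exact Real.abs_sin_le_one _
          have h3 : |x i| ≤ ‖x‖ := by
            rw [← Real.norm_eq_abs]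
            exact PiLp.norm_apply_le x i
          have h4 : |a i * x i| ≤ 1 + ‖x‖ ^ 2 := by
            rw [abs_mul]
            have h5 : |a i| * |x i| ≤ 1 * ‖x‖ :=
              mul_le_mul h2 h3 (abs_nonneg _) zero_le_one
            nlinarith [sq_nonneg (‖x‖ - 1)]
          have := abs_sub (Real.cos (x i)) (a i * x i)
          linarith
      _ = _ := by simp; ring
  have hglin2 : ∀ x, |gf a x| ≤ 3 * n * (1 + ‖x‖) := by
    intro x
    unfold gf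
    refine (Finset.abs_sum_le_sum_abs _ _).trans ?_
    calc ∑ i, |Real.cos (x i) - a i * x i| ≤ ∑ _i : Fin n, (1 + ‖x‖) := by
          refine Finset.sum_le_sum fun i _ => ?_
          have h1 := Real.abs_cos_le_one (x i)
          have h2 : |a i| ≤ 1 := by rw [hai, abs_neg]; exact Real.abs_sin_le_one _
          have h3 : |x i| ≤ ‖x‖ := by
            rw [← Real.norm_eq_abs]
            exact PiLp.norm_apply_le x i
          have h4 : |a i * x i| ≤ ‖x‖ := by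
            rw [abs_mul]
            have h5 : |a i| * |x i| ≤ 1 * ‖x‖ :=
              mul_le_mul h2 h3 (abs_nonneg _) zero_le_one
            linarith
          have := abs_sub (Real.cos (x i)) (a i * x i)
          linarith
      _ = n * (1 + ‖x‖) := by simp; ring
      _ ≤ 3 * n * (1 + ‖x‖) := by nlinarith [norm_nonneg x, mul_nonneg hn0.le (norm_nonneg x)]
  have ig1 : Integrable fun x => gf a x * wB R (hp p) x :=
    hA.of_bd _ hgcont.measurable (2 * n) fun x => (hglin x).trans (by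
      nlinarith [mul_nonneg hn0.le (sq_nonneg ‖x‖)])
  have ig2 : Integrable fun x => gf a x ^ 2 * wB R (hp p) x := by
    refine hA.of_bd _ (hgcont.measurable.pow_const 2) (18 * n ^ 2) fun x => ?_
    rw [abs_pow]
    refine (pow_le_pow_left₀ (abs_nonneg _) (hglin2 x) 2).trans ?_
    nlinarith [mul_nonneg (sq_nonneg (n : ℝ)) (sq_nonneg (‖x‖ - 1))]
  have hsh := VW_shift hA (gf a) ig1 ig2 c1
  rw [← hc1, sub_self] at hsh
  have ig3 : Integrable fun x => (gf a x - c1) ^ 2 * wB R (hp p) x := by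
    refine ((ig2.add (ig1.const_mul (-(2 * c1)))).add (hA.one.const_mul (c1 ^ 2))).congr
      (Eventually.of_forall fun x => ?_)
    simp only [Pi.add_apply]
    ring
  have hgc1 : Continuous fun x => (gf a x - c1) ^ 2 := (hgcont.sub continuous_const).pow 2
  -- gradient
  have hgrad : ∀ x, ‖fderiv ℝ (gf a) x‖ ^ 2 ≤ ‖x - Rr • m‖ ^ 2 := by
    intro x
    rw [gf_norm, EuclideanSpace.norm_sq_eq]
    refine Finset.sum_le_sum fun i _ => ?_
    rw [hai, Real.norm_eq_abs, sq_abs]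
    have h1 : (x - Rr • m) i = x i - Rr * m i := by simp
    rw [h1]
    have h2 : |Real.sin (x i) - Real.sin (Rr * m i)| ≤ |x i - Rr * m i| := by
      rw [Real.sin_sub_sin, abs_mul, abs_mul]
      have h3 := Real.abs_sin_le_abs (x := (x i - Rr * m i) / 2)
      have h4 := Real.abs_cos_le_one ((x i + Rr * m i) / 2)
      have h5 : |(x i - Rr * m i) / 2| = |x i - Rr * m i| / 2 := by
        rw [abs_div]; norm_num
      rw [h5] at h3
      have h6 : |(2 : ℝ)| = 2 := by norm_num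
      rw [h6]
      nlinarith [abs_nonneg (Real.sin ((x i - Rr * m i) / 2)),
        abs_nonneg (Real.cos ((x i + Rr * m i) / 2)), abs_nonneg (x i - Rr * m i)]
    have h3 := sq_le_sq.2 h2
    calc (-Real.sin (x i) - -Real.sin (Rr * m i)) ^ 2 =
        (Real.sin (x i) - Real.sin (Rr * m i)) ^ 2 := by ring
      _ ≤ _ := h3
  have hfdc : Continuous fun x => ‖fderiv ℝ (gf a) x‖ ^ 2 :=
    ((hgc.continuous_fderiv one_ne_zero).norm).pow 2
  have hdc : Continuous fun x : Eu (Fin n) => ‖x - Rr • m‖ ^ 2 := by fun_prop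
  have id1 : Integrable fun x => ‖x - Rr • m‖ ^ 2 * wB R (hp p) x := by
    refine hA.of_bd _ hdc.measurable (2 + 2 * ‖Rr • m‖ ^ 2) fun x => ?_
    rw [abs_of_nonneg (by positivity)]
    have h1 : ‖x - Rr • m‖ ≤ ‖x‖ + ‖Rr • m‖ := norm_sub_le _ _
    have h2 := pow_le_pow_left₀ (norm_nonneg _) h1 2
    nlinarith [sq_nonneg (‖x‖ - ‖Rr • m‖), mul_nonneg (sq_nonneg ‖x‖) (sq_nonneg ‖Rr • m‖)]
  have id2 : Integrable fun x => ‖fderiv ℝ (gf a) x‖ ^ 2 * wB R (hp p) x := by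
    refine Integrable.mono' id1 (hfdc.measurable.mul hA.meas).aestronglyMeasurable
      (Eventually.of_forall fun x => ?_)
    rw [Real.norm_eq_abs, abs_of_nonneg (mul_nonneg (by positivity) (hA.nonneg x))]
    exact mul_le_mul_of_nonneg_right (hgrad x) (hA.nonneg x)
  have hEg := EW_mono hA _ _ id2 id1 hgrad
  rw [nu_EW hp1 hn hint hdc.measurable] at hEg
  have iy2 : Integrable (fun y : Eu (Fin n) => ‖y‖ ^ 2) (kp p R) := kp_int hp1 hint (by fun_prop)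
  have iym : Integrable (fun y : Eu (Fin n) => ‖y - m‖ ^ 2) (kp p R) :=
    kp_int hp1 hint (by fun_prop)
  have hD : ∫ q : ℝ × Eu (Fin n), ‖q.1 • q.2 - Rr • m‖ ^ 2 ∂(nu p R) ≤
      4 * p * m2 p + 2 * (n * (Rr ^ 2 * ε)) := by
    have j1 : Integrable (fun q : ℝ × Eu (Fin n) => (q.1 - Rr) ^ 2 * ‖q.2‖ ^ 2) (nu p R) :=
      s1.mul_prod iy2
    have j2 : Integrable (fun q : ℝ × Eu (Fin n) => (fun _ : ℝ => (1 : ℝ)) q.1 * ‖q.2 - m‖ ^ 2)
        (nu p R) := (integrable_const (μ := rh p n) (1 : ℝ)).mul_prod iym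
    have h1 : ∫ q : ℝ × Eu (Fin n), ‖q.1 • q.2 - Rr • m‖ ^ 2 ∂(nu p R) ≤
        ∫ q : ℝ × Eu (Fin n), (2 * ((q.1 - Rr) ^ 2 * ‖q.2‖ ^ 2) +
          2 * Rr ^ 2 * ((fun _ : ℝ => (1 : ℝ)) q.1 * ‖q.2 - m‖ ^ 2)) ∂(nu p R) := by
      refine integral_mono (nu_int hp1 hn hint hdc.measurable id1)
        ((j1.const_mul 2).add (j2.const_mul (2 * Rr ^ 2))) fun q => ?_
      show ‖q.1 • q.2 - Rr • m‖ ^ 2 ≤ 2 * ((q.1 - Rr) ^ 2 * ‖q.2‖ ^ 2) +
          2 * Rr ^ 2 * (1 * ‖q.2 - m‖ ^ 2)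
      have h2 : q.1 • q.2 - Rr • m = (q.1 - Rr) • q.2 + Rr • (q.2 - m) := by
        rw [sub_smul, smul_sub]
        abel
      have h3 : ‖q.1 • q.2 - Rr • m‖ ≤ |q.1 - Rr| * ‖q.2‖ + Rr * ‖q.2 - m‖ := by
        rw [h2]
        refine (norm_add_le _ _).trans ?_
        rw [norm_smul, norm_smul, Real.norm_eq_abs, Real.norm_eq_abs, abs_of_pos hR]
      have h4 := pow_le_pow_left₀ (norm_nonneg _) h3 2
      have h5 : |q.1 - Rr| ^ 2 = (q.1 - Rr) ^ 2 := sq_abs _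
      nlinarith [sq_nonneg (|q.1 - Rr| * ‖q.2‖ - Rr * ‖q.2 - m‖)]
    refine h1.trans ?_
    rw [integral_add (j1.const_mul 2) (j2.const_mul (2 * Rr ^ 2)), integral_const_mul,
      integral_const_mul]
    unfold nu
    rw [integral_prod_mul (fun r : ℝ => (r - Rr) ^ 2) (fun y : Eu (Fin n) => ‖y‖ ^ 2),
      integral_prod_mul (fun _ : ℝ => (1 : ℝ)) (fun y : Eu (Fin n) => ‖y - m‖ ^ 2), ← hY,
      integral_const, probReal_univ, one_smul, one_mul]
    have h6 : (∫ r, (r - Rr) ^ 2 ∂(rh p n)) * Y ≤ 2 * p * m2 p := by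
      calc (∫ r, (r - Rr) ^ 2 ∂(rh p n)) * Y ≤ Rr ^ 2 / N * Y := mul_le_mul_of_nonneg_right s3 hY0
        _ = (Rr ^ 2 * Y) / N := by ring
        _ ≤ (2 * (n * m2 p)) / N := div_le_div_of_nonneg_right hRY hN0.le
        _ = 2 * m2 p * (n / N) := by ring
        _ ≤ 2 * m2 p * p := mul_le_mul_of_nonneg_left hnN (by positivity)
        _ = _ := by ring
    have h7 : 2 * Rr ^ 2 * ∫ y, ‖y - m‖ ^ 2 ∂(kp p R) ≤ 2 * Rr ^ 2 * (n * ε) :=
      mul_le_mul_of_nonneg_left hdist (by positivity)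
    nlinarith
  have hA1 : ∫ q : ℝ × Eu (Fin n), (gf a (q.1 • q.2) - c1) ^ 2 ∂(nu p R) ≤
      36 * (4 * p * m2 p + 2 * (n * (Rr ^ 2 * ε))) := by
    rw [← nu_EW hp1 hn hint hgc1.measurable, hsh]
    have : (0 : ℝ) ^ 2 = 0 := by norm_num
    rw [this, add_zero]
    refine hpo.trans ?_
    refine mul_le_mul_of_nonneg_left (hEg.trans hD) (by norm_num)
  -- the three other terms
  have jB : Integrable (fun q : ℝ × Eu (Fin n) => q.1 ^ 2 * ⟪q.2 - m, a⟫_ℝ ^ 2) (nu p R) :=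
    s2.mul_prod (kp_int hp1 hint (by fun_prop) :
      Integrable (fun y : Eu (Fin n) => ⟪y - m, a⟫_ℝ ^ 2) (kp p R))
  have jC : Integrable (fun q : ℝ × Eu (Fin n) => (q.1 ^ p / N - 1) ^ 4 *
      (fun _ : Eu (Fin n) => (1 : ℝ)) q.2) (nu p R) :=
    z3.mul_prod (integrable_const (μ := kp p R) (1 : ℝ))
  have iz2 : Integrable (fun r : ℝ => (r ^ p) ^ 2) (rh p n) := (rh_mom hp1 hn 2).1
  have jD : Integrable (fun q : ℝ × Eu (Fin n) => (q.1 ^ p) ^ 2 * (1 - sp p q.2) ^ 2) (nu p R) :=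
    iz2.mul_prod (kp_int hp1 hint ((continuous_const.sub hspc).pow 2) :
      Integrable (fun y : Eu (Fin n) => (1 - sp p y) ^ 2) (kp p R))
  have vB : ∫ q : ℝ × Eu (Fin n), q.1 ^ 2 * ⟪q.2 - m, a⟫_ℝ ^ 2 ∂(nu p R) ≤
      4 * (n * (Rr ^ 2 * ε)) := by
    unfold nu
    rw [integral_prod_mul (fun r : ℝ => r ^ 2) (fun y : Eu (Fin n) => ⟪y - m, a⟫_ℝ ^ 2)]
    have h1 := hε a
    have h0 : 0 ≤ ∫ y, ⟪y - m, a⟫_ℝ ^ 2 ∂(kp p R) := integral_nonneg fun y => sq_nonneg _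
    have h00 : 0 ≤ n * ε := (integral_nonneg (μ := kp p R)
      (fun y : Eu (Fin n) => (by positivity : 0 ≤ ‖y - m‖ ^ 2))).trans hdist
    have hε0 : 0 ≤ ε := by
      rcases lt_or_ge ε 0 with h | h
      · nlinarith
      · exact h
    calc (∫ r, r ^ 2 ∂(rh p n)) * ∫ y, ⟪y - m, a⟫_ℝ ^ 2 ∂(kp p R) ≤
        (4 * Rr ^ 2) * (ε * ‖a‖ ^ 2) := mul_le_mul s4 h1 h0 (by positivity)
      _ ≤ (4 * Rr ^ 2) * (ε * n) := by
          refine mul_le_mul_of_nonneg_left (mul_le_mul_of_nonneg_left hanorm hε0) (by positivity)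
      _ = _ := by ring
  have vC : ∫ q : ℝ × Eu (Fin n), (q.1 ^ p / N - 1) ^ 4 *
      (fun _ : Eu (Fin n) => (1 : ℝ)) q.2 ∂(nu p R) ≤ 9 / N ^ 2 := by
    unfold nu
    rw [integral_prod_mul (fun r : ℝ => (r ^ p / N - 1) ^ 4) (fun _ : Eu (Fin n) => (1 : ℝ)),
      integral_const, probReal_univ, one_smul, mul_one]
    exact z4
  have vD : ∫ q : ℝ × Eu (Fin n), (q.1 ^ p) ^ 2 * (1 - sp p q.2) ^ 2 ∂(nu p R) = 2 := by
    unfold nu
    rw [integral_prod_mul (fun r : ℝ => (r ^ p) ^ 2) (fun y : Eu (Fin n) => (1 - sp p y) ^ 2),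
      z2, k3]
    field_simp
  -- conclusion
  have hcomb : ∫ q : ℝ × Eu (Fin n), (∑ i, (Real.cos ((q.1 • q.2) i) -
      b * |(q.1 • q.2) i| ^ p) - (c1 + c2)) ^ 2 ∂(nu p R) ≤
      ∫ q : ℝ × Eu (Fin n), (2 * (gf a (q.1 • q.2) - c1) ^ 2 +
        (6 * (q.1 ^ 2 * ⟪q.2 - m, a⟫_ℝ ^ 2) +
        (6 * β ^ 2 * ((q.1 ^ p / N - 1) ^ 4 * (fun _ : Eu (Fin n) => (1 : ℝ)) q.2) +
        6 * b ^ 2 * ((q.1 ^ p) ^ 2 * (1 - sp p q.2) ^ 2)))) ∂(nu p R) := by
    refine integral_mono_of_nonneg (Eventually.of_forall fun q => sq_nonneg _) ?_ ?_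
    · exact ((nu_int hp1 hn hint hgc1.measurable ig3).const_mul 2).add
        ((jB.const_mul 6).add ((jC.const_mul (6 * β ^ 2)).add (jD.const_mul (6 * b ^ 2))))
    · filter_upwards [nu_ae hp1 R hkp] with q hq
      obtain ⟨r, y⟩ := q
      show (∑ i, (Real.cos ((r • y) i) - b * |(r • y) i| ^ p) - (c1 + c2)) ^ 2 ≤
        2 * (gf a (r • y) - c1) ^ 2 + (6 * (r ^ 2 * ⟪y - m, a⟫_ℝ ^ 2) +
        (6 * β ^ 2 * ((r ^ p / N - 1) ^ 4 * 1) + 6 * b ^ 2 * ((r ^ p) ^ 2 * (1 - sp p y) ^ 2)))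
      have hr : 0 < r := hq
      have h1 : ∑ i, (Real.cos ((r • y) i) - b * |(r • y) i| ^ p) =
          gf a (r • y) + ⟪r • y, a⟫_ℝ - b * sp p (r • y) := by
        rw [inner_sum]
        unfold gf sp
        rw [Finset.mul_sum, ← Finset.sum_add_distrib, ← Finset.sum_sub_distrib]
        refine Finset.sum_congr rfl fun i _ => ?_
        ring
      obtain ⟨τ, hτ⟩ : ∃ τ, τ = r ^ p / N := ⟨_, rfl⟩
      have hτ0 : 0 < τ := by
        rw [hτ]
        exact div_pos (Real.rpow_pos_of_pos hr p) hN0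
      have h2 : τ ^ (1 / p) = r / Rr := by
        rw [hτ, Real.div_rpow (Real.rpow_nonneg hr.le p) hN0.le, ← Real.rpow_mul hr.le,
          mul_one_div_cancel hp0.ne', Real.rpow_one, hRd]
      have h3 : r ^ p = N * τ := by
        rw [hτ]
        field_simp
      have h4 : ⟪r • y, a⟫_ℝ - b * sp p (r • y) - c2 = r * ⟪y - m, a⟫_ℝ +
          β * (τ ^ (1 / p) - 1 - 1 / p * (τ - 1)) + b * (r ^ p * (1 - sp p y)) := by
        rw [sp_smul p hr, real_inner_smul_left, inner_sub_left, h2, hc2, hb, h3]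
        have hRne := hR.ne'
        rw [hβ]
        field_simp
        ring
      obtain ⟨P, hP⟩ : ∃ P, P = τ ^ (1 / p) - 1 - 1 / p * (τ - 1) := ⟨_, rfl⟩
      have h5 : P ^ 2 ≤ (τ - 1) ^ 4 := by
        have h6 := pow_near (α := 1 / p) (τ := τ) (by positivity)
          (by rw [div_le_one hp0]; exact hp1) hτ0
        rw [← hP] at h6
        calc P ^ 2 = |P| ^ 2 := (sq_abs _).symm
          _ ≤ ((τ - 1) ^ 2) ^ 2 := pow_le_pow_left₀ (abs_nonneg _) h6 2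
          _ = _ := by ring
      rw [← hP] at h4
      rw [h1, ← hτ]
      have h7 : gf a (r • y) + ⟪r • y, a⟫_ℝ - b * sp p (r • y) - (c1 + c2) =
          (gf a (r • y) - c1) + (r * ⟪y - m, a⟫_ℝ + β * P + b * (r ^ p * (1 - sp p y))) := by
        rw [← h4]
        ring
      rw [h7]
      obtain ⟨A, hAA⟩ : ∃ A, A = gf a (r • y) - c1 := ⟨_, rfl⟩
      obtain ⟨B, hBB⟩ : ∃ B, B = r * ⟪y - m, a⟫_ℝ := ⟨_, rfl⟩
      obtain ⟨D, hDD⟩ : ∃ D, D = b * (r ^ p * (1 - sp p y)) := ⟨_, rfl⟩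
      have e1 : r ^ 2 * ⟪y - m, a⟫_ℝ ^ 2 = B ^ 2 := by rw [hBB]; ring
      have e2 : 6 * b ^ 2 * ((r ^ p) ^ 2 * (1 - sp p y) ^ 2) = 6 * D ^ 2 := by rw [hDD]; ring
      rw [e1, e2, ← hAA, ← hBB, ← hDD]
      have e3 : (β * P) ^ 2 ≤ β ^ 2 * (τ - 1) ^ 4 := by
        rw [mul_pow]
        exact mul_le_mul_of_nonneg_left h5 (sq_nonneg _)
      nlinarith [sq_nonneg (A - (B + β * P + D)), sq_nonneg (B - β * P), sq_nonneg (B - D),
        sq_nonneg (β * P - D)]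
  have hfin := hlow2.trans hcomb
  have K34 : Integrable (fun q : ℝ × Eu (Fin n) =>
      6 * β ^ 2 * ((q.1 ^ p / N - 1) ^ 4 * (fun _ : Eu (Fin n) => (1 : ℝ)) q.2) +
      6 * b ^ 2 * ((q.1 ^ p) ^ 2 * (1 - sp p q.2) ^ 2)) (nu p R) :=
    (jC.const_mul (6 * β ^ 2)).add (jD.const_mul (6 * b ^ 2))
  have K234 : Integrable (fun q : ℝ × Eu (Fin n) => 6 * (q.1 ^ 2 * ⟪q.2 - m, a⟫_ℝ ^ 2) +
      (6 * β ^ 2 * ((q.1 ^ p / N - 1) ^ 4 * (fun _ : Eu (Fin n) => (1 : ℝ)) q.2) +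
      6 * b ^ 2 * ((q.1 ^ p) ^ 2 * (1 - sp p q.2) ^ 2))) (nu p R) :=
    (jB.const_mul 6).add K34
  rw [integral_add ((nu_int hp1 hn hint hgc1.measurable ig3).const_mul 2) K234,
    integral_add (jB.const_mul 6) K34,
    integral_add (jC.const_mul (6 * β ^ 2)) (jD.const_mul (6 * b ^ 2)),
    integral_const_mul, integral_const_mul, integral_const_mul, integral_const_mul, vD] at hfin
  have w1 : 6 * β ^ 2 * ∫ q : ℝ × Eu (Fin n), (q.1 ^ p / N - 1) ^ 4 *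
      (fun _ : Eu (Fin n) => (1 : ℝ)) q.2 ∂(nu p R) ≤ 108 * p ^ 2 * m2 p := by
    calc _ ≤ 6 * β ^ 2 * (9 / N ^ 2) := mul_le_mul_of_nonneg_left vC (by positivity)
      _ ≤ 6 * (2 * n ^ 2 * m2 p) * (9 / N ^ 2) := by
          refine mul_le_mul_of_nonneg_right ?_ (by positivity)
          linarith
      _ = 108 * m2 p * (n / N) ^ 2 := by
          field_simp
          ring
      _ ≤ 108 * m2 p * p ^ 2 := by
          refine mul_le_mul_of_nonneg_left ?_ (by positivity)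
          exact pow_le_pow_left₀ (by positivity) hnN 2
      _ = _ := by ring
  have w2 : 6 * b ^ 2 * 2 ≤ 24 * m2 p := by
    have h1 : b ^ 2 = β ^ 2 / (p * N) ^ 2 := by rw [hb]; ring
    have h2 : (n : ℝ) ≤ p * N := by
      rw [div_le_iff₀ hN0] at hnN
      exact hnN
    have h3 : β ^ 2 / (p * N) ^ 2 ≤ 2 * m2 p := by
      rw [div_le_iff₀ (by positivity)]
      refine hβ2.trans ?_
      have h4 : (n : ℝ) ^ 2 ≤ (p * N) ^ 2 := pow_le_pow_left₀ hn0.le h2 2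
      nlinarith
    rw [h1]
    linarith
  nlinarith

end Pool.Agent.T2H73.LB
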