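import Pool.Agent.T2H73.LB.Rad
import Pool.Agent.Y506.RG.Fnl

/-!
# The law with density `exp (-∑ |x i| ^ p)` as a mixture of the uniform measures
-/

set_option autoImplicit false

namespace Pool.Agent.T2H73.LB

open MeasureTheory Set Filter Topology ProbabilityTheory
open scoped ENNReal InnerProductSpace
open Pool.Agent.W695.KH (Eu)
open Pool.Agent.Y506.RG (EW VW Adm pm pm_prob pm_int pm_integrable)
open Pool.Agent.Y388.PV (Wr Wr_nonneg mom_int mom_val)
open Pool.Agent.T2H73.SB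

variable {n : ℕ}

/-- uniform measure on the body -/
noncomputable def kp (p : ℝ) (R : Fin n × Bool → Fin n × Bool → Prop) : Measure (Eu (Fin n)) :=
  (volume (KC p R))⁻¹ • volume.restrict (KC p R)

theorem vol_pos {p : ℝ} {R : Fin n × Bool → Fin n × Bool → Prop}
    (hint : (interior (KC p R)).Nonempty) : 0 < volume (KC p R) :=
  lt_of_lt_of_le (isOpen_interior.measure_pos volume hint) (measure_mono interior_subset)

theorem vol_fin {p : ℝ} (hp1 : 1 ≤ p) (R : Fin n × Bool → Fin n × Bool → Prop) :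
    volume (KC p R) ≠ ⊤ := (KC_bdd hp1 R).measure_lt_top.ne

theorem kp_prob {p : ℝ} (hp1 : 1 ≤ p) {R : Fin n × Bool → Fin n × Bool → Prop}
    (hint : (interior (KC p R)).Nonempty) : IsProbabilityMeasure (kp p R) := by
  refine ⟨?_⟩
  unfold kp
  rw [Measure.smul_apply, Measure.restrict_apply_univ, smul_eq_mul]
  exact ENNReal.inv_mul_cancel (vol_pos hint).ne' (vol_fin hp1 R)

theorem kp_ae {p : ℝ} (hp1 : 1 ≤ p) (R : Fin n × Bool → Fin n × Bool → Prop) :
    ∀ᵐ y ∂(kp p R), y ∈ KC p R := by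
  unfold kp
  refine Measure.ae_smul_measure ?_ _
  exact ae_restrict_mem (KC_closed hp1 R).measurableSet

theorem kp_int {p : ℝ} (hp1 : 1 ≤ p) {R : Fin n × Bool → Fin n × Bool → Prop}
    (hint : (interior (KC p R)).Nonempty) {f : Eu (Fin n) → ℝ} (hf : Continuous f) :
    Integrable f (kp p R) := by
  have := kp_prob hp1 hint
  obtain ⟨M, hM⟩ := (KC_compact hp1 R).exists_bound_of_continuousOn hf.continuousOn
  refine Integrable.of_bound hf.aestronglyMeasurable M ?_
  filter_upwards [kp_ae hp1 R] with y hy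
  exact hM y hy

/-- product of the radial and the uniform measure -/
noncomputable def nu (p : ℝ) (R : Fin n × Bool → Fin n × Bool → Prop) : Measure (ℝ × Eu (Fin n)) :=
  (rh p n).prod (kp p R)

theorem smul_meas : Measurable fun q : ℝ × Eu (Fin n) => q.1 • q.2 :=
  (continuous_fst.smul continuous_snd).measurable

theorem map_mix {p : ℝ} (hp1 : 1 ≤ p) (hn : 1 ≤ n) (R : Fin n × Bool → Fin n × Bool → Prop)
    (hint : (interior (KC p R)).Nonempty) :
    Measure.map (fun q : ℝ × Eu (Fin n) => q.1 • q.2) (nu p R) = pm (wB R (hp p)) := by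
  have hrp := rh_prob (n := n) hp1 hn
  have hkp := kp_prob hp1 hint
  have hB := BB_pos hp1 n
  have hV0 := (vol_pos hint).ne'
  have hVt := vol_fin hp1 R
  obtain ⟨hA, _⟩ := adms hp1 hn R hint
  have hmix := Pool.Agent.Y506.PV.Mx.mix p n (PhC p R) hp1 hn (hom_PhC hp1 R hint)
  rw [wPhi_eq, KC_eq] at hmix
  have hWm : Measurable fun r : ℝ => ENNReal.ofReal (Wr p n r) :=
    ENNReal.measurable_ofReal.comp (Wr_meas p n)
  have hWI : ∫⁻ r in Ioi (0 : ℝ), ENNReal.ofReal (Wr p n r) = ENNReal.ofReal (BB p n) := by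
    have h5 := mom_int hp1 n hn 0 le_rfl
    have h6 := mom_val hp1 n hn 0 le_rfl
    simp only [Real.rpow_zero, one_mul, zero_div, add_zero] at h5 h6
    rw [← ofReal_integral_eq_lintegral_ofReal h5 ((ae_restrict_iff' measurableSet_Ioi).2
      (Eventually.of_forall fun r hr => Wr_nonneg hp1 n hr)), h6]
    rfl
  have hw1 : ∫⁻ x, ENNReal.ofReal (wB R (hp p) x) = ENNReal.ofReal (BB p n) * volume (KC p R) := by
    have h := hmix (fun _ => 1) measurable_const
    simp only [one_mul, lintegral_const, Measure.restrict_apply_univ] at h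
    rw [h]
    have e : ∀ r : ℝ, ENNReal.ofReal (p * r ^ ((n : ℝ) + p - 1) * Real.exp (-(r ^ p))) =
        ENNReal.ofReal (Wr p n r) := fun r => rfl
    simp only [e]
    rw [lintegral_mul_const _ hWm, hWI]
  refine Measure.ext_of_lintegral _ fun F hF => ?_
  rw [lintegral_map hF smul_meas]
  unfold nu
  rw [lintegral_prod (fun q : ℝ × Eu (Fin n) => F (q.1 • q.2)) (hF.comp smul_meas).aemeasurable]
  have e1 : ∀ r : ℝ, ∫⁻ y, F (r • y) ∂(kp p R) = (volume (KC p R))⁻¹ * ∫⁻ y in KC p R, F (r • y) := by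
    intro r
    unfold kp
    rw [lintegral_smul_measure, smul_eq_mul]
  simp only [e1]
  have hFm : Measurable fun r : ℝ => ∫⁻ y in KC p R, F (r • y) :=
    (hF.comp smul_meas).lintegral_prod_right'
  rw [lintegral_const_mul _ hFm]
  unfold rh
  rw [lintegral_withDensity_eq_lintegral_mul _ (rh_meas p n) hFm]
  have e2 : ∀ r : ℝ, ((fun r => ENNReal.ofReal (Wr p n r / BB p n)) *
      fun r : ℝ => ∫⁻ y in KC p R, F (r • y)) r = (ENNReal.ofReal (BB p n))⁻¹ *
      (ENNReal.ofReal (Wr p n r) * ∫⁻ y in KC p R, F (r • y)) := by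
    intro r
    rw [Pi.mul_apply, div_eq_inv_mul, ENNReal.ofReal_mul (inv_nonneg.2 hB.le),
      ENNReal.ofReal_inv_of_pos hB, mul_assoc]
  simp only [e2]
  have hWFm : Measurable fun r : ℝ => ENNReal.ofReal (Wr p n r) *
      ∫⁻ y in KC p R, F (r • y) := hWm.mul hFm
  rw [lintegral_const_mul _ hWFm]
  have h := hmix F hF
  have e3 : ∀ r : ℝ, ENNReal.ofReal (p * r ^ ((n : ℝ) + p - 1) * Real.exp (-(r ^ p))) =
      ENNReal.ofReal (Wr p n r) := fun r => rfl
  simp only [e3] at h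
  rw [← h]
  unfold pm
  have hwm : Measurable fun x => ENNReal.ofReal (wB R (hp p) x) :=
    ENNReal.measurable_ofReal.comp hA.meas
  rw [lintegral_smul_measure, smul_eq_mul, hw1, lintegral_withDensity_eq_lintegral_mul _ hwm hF]
  have e4 : ∀ x, ((fun x => ENNReal.ofReal (wB R (hp p) x)) * F) x =
      F x * ENNReal.ofReal (wB R (hp p) x) := by
    intro x
    rw [Pi.mul_apply, mul_comm]
  have e6 : (∫⁻ a, ((fun x => ENNReal.ofReal (wB R (hp p) x)) * F) a) =
      ∫⁻ x, F x * ENNReal.ofReal (wB R (hp p) x) := lintegral_congr e4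
  rw [e6, ← mul_assoc]
  congr 1
  rw [ENNReal.mul_inv (Or.inr hVt) (Or.inr hV0), mul_comm]

theorem nu_EW {p : ℝ} (hp1 : 1 ≤ p) (hn : 1 ≤ n) {R : Fin n × Bool → Fin n × Bool → Prop}
    (hint : (interior (KC p R)).Nonempty) {f : Eu (Fin n) → ℝ} (hf : Measurable f) :
    EW (wB R (hp p)) f = ∫ q, f (q.1 • q.2) ∂(nu p R) := by
  obtain ⟨hA, _⟩ := adms hp1 hn R hint
  rw [← pm_int hA, ← map_mix hp1 hn R hint, integral_map smul_meas.aemeasurable
    hf.aestronglyMeasurable]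

theorem nu_int {p : ℝ} (hp1 : 1 ≤ p) (hn : 1 ≤ n) {R : Fin n × Bool → Fin n × Bool → Prop}
    (hint : (interior (KC p R)).Nonempty) {f : Eu (Fin n) → ℝ} (hf : Measurable f)
    (hi : Integrable fun x => f x * wB R (hp p) x) :
    Integrable (fun q : ℝ × Eu (Fin n) => f (q.1 • q.2)) (nu p R) := by
  obtain ⟨hA, _⟩ := adms hp1 hn R hint
  have h1 := pm_integrable hA f hi
  rw [← map_mix hp1 hn R hint, integrable_map_measure hf.aestronglyMeasurable
    smul_meas.aemeasurable] at h1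
  exact h1

theorem rh_ae (p : ℝ) (n : ℕ) : ∀ᵐ r ∂(rh p n), 0 < r := by
  unfold rh
  refine (withDensity_absolutelyContinuous _ _).ae_le ?_
  exact ae_restrict_mem measurableSet_Ioi

theorem nu_ae {p : ℝ} (hp1 : 1 ≤ p) (R : Fin n × Bool → Fin n × Bool → Prop)
    (hkp : IsProbabilityMeasure (kp p R)) : ∀ᵐ q ∂(nu p R), 0 < q.1 := by
  unfold nu
  exact Measure.quasiMeasurePreserving_fst.ae (rh_ae p n)

/-- moments of the uniform measure -/
theorem kp_moms {p : ℝ} (hp1 : 1 ≤ p) (hn : 1 ≤ n) {R : Fin n × Bool → Fin n × Bool → Prop}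
    (hint : (interior (KC p R)).Nonempty) :
    (∫ r, r ^ 2 ∂(rh p n)) * ∫ y, ‖y‖ ^ 2 ∂(kp p R) = n * m2 p ∧
    ∫ y, ‖y‖ ^ 2 ∂(kp p R) ≤ 2 * (n * m2 p) / RR p n ^ 2 ∧
    ∫ y, (1 - sp p y) ^ 2 ∂(kp p R) = 2 / (aN p n * (aN p n + 1)) := by
  have hrp := rh_prob (n := n) hp1 hn
  have hkp := kp_prob hp1 hint
  obtain ⟨hA, _⟩ := adms hp1 hn R hint
  obtain ⟨e1, e2, e3⟩ := moms hp1 R hA
  obtain ⟨z1, z2, _, _⟩ := rh_moms (n := n) hp1 hn
  obtain ⟨_, _, _, _, s5⟩ := rh_sq (n := n) hp1 hn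
  have ha := aN_one hp1 n
  have hR := RR_pos hp1 n
  have hspm : Measurable (sp p : Eu (Fin n) → ℝ) := (sp_cont hp1).measurable
  rw [nu_EW hp1 hn hint (by fun_prop)] at e1
  rw [nu_EW hp1 hn hint hspm] at e2
  rw [nu_EW hp1 hn hint (hspm.pow_const 2)] at e3
  have f1 : ∫ q : ℝ × Eu (Fin n), ‖q.1 • q.2‖ ^ 2 ∂(nu p R) =
      (∫ r, r ^ 2 ∂(rh p n)) * ∫ y, ‖y‖ ^ 2 ∂(kp p R) := by
    unfold nu
    rw [← integral_prod_mul]
    refine integral_congr_ae (Eventually.of_forall fun q => ?_)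
    simp only
    rw [norm_smul, mul_pow, Real.norm_eq_abs, sq_abs]
  have f2 : ∫ q : ℝ × Eu (Fin n), sp p (q.1 • q.2) ∂(nu p R) =
      (∫ r, r ^ p ∂(rh p n)) * ∫ y, sp p y ∂(kp p R) := by
    have hae := nu_ae hp1 R hkp
    rw [← integral_prod_mul]
    refine integral_congr_ae ?_
    filter_upwards [hae] with q hq
    rw [sp_smul p hq]
  have f3 : ∫ q : ℝ × Eu (Fin n), sp p (q.1 • q.2) ^ 2 ∂(nu p R) =
      (∫ r, (r ^ p) ^ 2 ∂(rh p n)) * ∫ y, sp p y ^ 2 ∂(kp p R) := by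
    have hae := nu_ae hp1 R hkp
    rw [← integral_prod_mul]
    refine integral_congr_ae ?_
    filter_upwards [hae] with q hq
    rw [sp_smul p hq, mul_pow]
  rw [f1] at e1
  rw [f2, z1] at e2
  rw [f3, z2] at e3
  refine ⟨e1, ?_, ?_⟩
  · rw [le_div_iff₀ (by positivity)]
    have h1 : 0 ≤ ∫ y, ‖y‖ ^ 2 ∂(kp p R) := integral_nonneg fun y => by positivity
    nlinarith [mul_le_mul_of_nonneg_right s5 h1]
  · obtain ⟨a, haa⟩ : ∃ a, a = aN p n := ⟨_, rfl⟩
    have hna : (n : ℝ) / p = a - 1 := by rw [haa]; unfold aN; ring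
    rw [← haa] at ha e2 e3 ⊢
    rw [hna] at e2 e3
    have i1 := kp_int hp1 hint (sp_cont (n := n) hp1)
    have i2 : Integrable (fun y : Eu (Fin n) => sp p y ^ 2) (kp p R) :=
      kp_int hp1 hint ((sp_cont (n := n) hp1).pow 2)
    have h1 : ∫ y, (1 - sp p y) ^ 2 ∂(kp p R) =
        1 - 2 * ∫ y, sp p y ∂(kp p R) + ∫ y, sp p y ^ 2 ∂(kp p R) := by
      have e : ∀ y : Eu (Fin n), (1 - sp p y) ^ 2 = 1 - 2 * sp p y + sp p y ^ 2 := by
        intro y; ring
      simp only [e]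
      have j1 : Integrable (fun y : Eu (Fin n) => 1 - 2 * sp p y) (kp p R) :=
        (integrable_const _).sub (i1.const_mul 2)
      rw [integral_add j1 i2, integral_sub (integrable_const _) (i1.const_mul 2),
        integral_const_mul, integral_const, probReal_univ, one_smul]
    have ha0 : a ≠ 0 := by linarith
    have ha1 : a + 1 ≠ 0 := by linarith
    have h2 : ∫ y, sp p y ∂(kp p R) = (a - 1) / a := by
      rw [eq_div_iff ha0]
      linarith
    have h3 : ∫ y, sp p y ^ 2 ∂(kp p R) = (a - 1) / (a + 1) := by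
      rw [eq_div_iff ha1]
      have : a * ((∫ y, sp p y ^ 2 ∂(kp p R)) * (a + 1)) = a * (a - 1) := by linarith
      exact mul_left_cancel₀ ha0 this
    rw [h1, h2, h3]
    field_simp
    ring

end Pool.Agent.T2H73.LB
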