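import Pool.Agent.T2H73.LB.Phi
import Pool.Agent.H988R2.Gauss

/-!
# The density `exp (-|s| ^ p)` on the line
-/

set_option autoImplicit false

namespace Pool.Agent.T2H73.LB

open MeasureTheory Set Filter Topology ProbabilityTheory
open scoped ENNReal InnerProductSpace

theorem integrable_comp_abs {f : ℝ → ℝ} (hf : IntegrableOn f (Ioi 0)) :
    Integrable fun s => f |s| := by
  have h1 : IntegrableOn (fun s => f |s|) (Ioi 0) := by
    refine hf.congr_fun (fun s hs => ?_) measurableSet_Ioi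
    rw [abs_of_pos hs]
  have h2 : IntegrableOn (fun x ↦ f |x|) (Iic 0) := by
    rw [← Measure.map_neg_eq_self (volume : Measure ℝ)]
    let m : MeasurableEmbedding fun x : ℝ => -x := (Homeomorph.neg ℝ).measurableEmbedding
    rw [m.integrableOn_map_iff]
    simp_rw [Function.comp_def, abs_neg, neg_preimage, neg_Iic, neg_zero]
    exact Iff.mpr integrableOn_Ici_iff_integrableOn_Ioi h1
  have h3 := h2.union h1
  rwa [Iic_union_Ioi, integrableOn_univ] at h3

theorem mom_hp {p : ℝ} (hp1 : 1 ≤ p) {q : ℝ} (hq : 0 ≤ q) :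
    Integrable (fun s : ℝ => |s| ^ q * hp p s) ∧
    ∫ s : ℝ, |s| ^ q * hp p s = 2 * ((1 / p) * Real.Gamma ((q + 1) / p)) := by
  have hp0 : 0 < p := by linarith
  constructor
  · exact integrable_comp_abs (f := fun x => x ^ q * Real.exp (-x ^ p))
      (integrableOn_rpow_mul_exp_neg_rpow (by linarith) hp0)
  · have h := integral_comp_abs (f := fun x => x ^ q * Real.exp (-x ^ p))
    rw [integral_rpow_mul_exp_neg_rpow hp0 (by linarith)] at h
    exact h

theorem hp_int {p : ℝ} (hp1 : 1 ≤ p) : Integrable (hp p) := by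
  have h := (mom_hp hp1 (le_refl 0)).1
  simpa using h

/-- total mass -/
noncomputable def Zp (p : ℝ) : ℝ := ∫ s, hp p s

theorem Zp_val {p : ℝ} (hp1 : 1 ≤ p) : Zp p = 2 * ((1 / p) * Real.Gamma (1 / p)) := by
  have h := (mom_hp hp1 (le_refl 0)).2
  unfold Zp
  simpa using h

theorem Zp_pos {p : ℝ} (hp1 : 1 ≤ p) : 0 < Zp p := by
  rw [Zp_val hp1]
  have hp0 : 0 < p := by linarith
  have := Real.Gamma_pos_of_pos (s := 1 / p) (by positivity)
  positivity

/-- the normalised measure -/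
noncomputable def gm (p : ℝ) : Measure ℝ :=
  (volume : Measure ℝ).withDensity fun s => ENNReal.ofReal (hp p s / Zp p)

theorem gm_meas {p : ℝ} (hp1 : 1 ≤ p) : Measurable fun s => ENNReal.ofReal (hp p s / Zp p) :=
  ENNReal.measurable_ofReal.comp ((hp_cont hp1).measurable.div_const _)

theorem gm_prob {p : ℝ} (hp1 : 1 ≤ p) : IsProbabilityMeasure (gm p) := by
  refine ⟨?_⟩
  unfold gm
  rw [withDensity_apply _ MeasurableSet.univ, Measure.restrict_univ,
    ← ofReal_integral_eq_lintegral_ofReal ((hp_int hp1).div_const _)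
      (Eventually.of_forall fun s => div_nonneg (hp_pos p s).le (Zp_pos hp1).le),
    integral_div]
  have : ∫ s, hp p s = Zp p := rfl
  rw [this, div_self (Zp_pos hp1).ne', ENNReal.ofReal_one]

theorem gm_integral {p : ℝ} (hp1 : 1 ≤ p) (f : ℝ → ℝ) :
    ∫ s, f s ∂(gm p) = (∫ s, f s * hp p s) / Zp p := by
  unfold gm
  rw [integral_withDensity_eq_integral_toReal_smul (gm_meas hp1)
    (Eventually.of_forall fun x => ENNReal.ofReal_lt_top), ← integral_div]
  refine integral_congr_ae (Eventually.of_forall fun s => ?_)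
  simp only
  rw [ENNReal.toReal_ofReal (div_nonneg (hp_pos p s).le (Zp_pos hp1).le), smul_eq_mul]
  ring

theorem gm_integrable {p : ℝ} (hp1 : 1 ≤ p) {f : ℝ → ℝ} (hf : Integrable fun s => f s * hp p s) :
    Integrable f (gm p) := by
  unfold gm
  rw [integrable_withDensity_iff_integrable_smul' (gm_meas hp1)
    (Eventually.of_forall fun x => ENNReal.ofReal_lt_top)]
  refine (hf.div_const (Zp p)).congr (Eventually.of_forall fun s => ?_)
  simp only
  rw [ENNReal.toReal_ofReal (div_nonneg (hp_pos p s).le (Zp_pos hp1).le), smul_eq_mul]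
  ring

theorem gm_abs {p : ℝ} (hp1 : 1 ≤ p) {q : ℝ} (hq : 0 ≤ q) :
    Integrable (fun s : ℝ => |s| ^ q) (gm p) ∧
    ∫ s : ℝ, |s| ^ q ∂(gm p) = Real.Gamma ((q + 1) / p) / Real.Gamma (1 / p) := by
  have hp0 : 0 < p := by linarith
  refine ⟨gm_integrable hp1 (mom_hp hp1 hq).1, ?_⟩
  rw [gm_integral hp1, (mom_hp hp1 hq).2, Zp_val hp1]
  have := (Real.Gamma_pos_of_pos (s := 1 / p) (by positivity)).ne'
  field_simp

theorem gm_p {p : ℝ} (hp1 : 1 ≤ p) : ∫ s : ℝ, |s| ^ p ∂(gm p) = 1 / p := by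
  have hp0 : 0 < p := by linarith
  rw [(gm_abs hp1 hp0.le).2]
  have e : (p + 1) / p = 1 / p + 1 := by field_simp; ring
  rw [e, Real.Gamma_add_one (by positivity)]
  have := (Real.Gamma_pos_of_pos (s := 1 / p) (by positivity)).ne'
  field_simp

theorem gm_pp {p : ℝ} (hp1 : 1 ≤ p) :
    ∫ s : ℝ, (|s| ^ p) ^ 2 ∂(gm p) = (1 / p + 1) * (1 / p) := by
  have hp0 : 0 < p := by linarith
  have e0 : ∀ s : ℝ, (|s| ^ p) ^ 2 = |s| ^ (2 * p) := by
    intro s
    rw [mul_comm, Real.rpow_mul (abs_nonneg _), Real.rpow_two]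
  simp only [e0]
  rw [(gm_abs hp1 (by linarith : 0 ≤ 2 * p)).2]
  have e : (2 * p + 1) / p = (1 / p + 1) + 1 := by field_simp; ring
  rw [e, Real.Gamma_add_one (by positivity), Real.Gamma_add_one (by positivity)]
  have := (Real.Gamma_pos_of_pos (s := 1 / p) (by positivity)).ne'
  field_simp

theorem memp {p : ℝ} (hp1 : 1 ≤ p) {q : ℝ} (hq : 0 ≤ q) :
    MemLp (fun s : ℝ => |s| ^ q) 2 (gm p) := by
  have hm : Measurable fun s : ℝ => |s| ^ q := by fun_prop
  rw [memLp_two_iff_integrable_sq hm.aestronglyMeasurable]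
  have e0 : ∀ s : ℝ, (|s| ^ q) ^ 2 = |s| ^ (2 * q) := by
    intro s
    rw [mul_comm, Real.rpow_mul (abs_nonneg _), Real.rpow_two]
  simp only [e0]
  exact (gm_abs hp1 (by linarith)).1

theorem memc {p : ℝ} (hp1 : 1 ≤ p) : MemLp Real.cos 2 (gm p) := by
  have := gm_prob hp1
  exact MemLp.of_bound Real.continuous_cos.aestronglyMeasurable 1
    (Eventually.of_forall fun s => by rw [Real.norm_eq_abs]; exact Real.abs_cos_le_one s)

/-- second moment -/
noncomputable def m2 (p : ℝ) : ℝ := ∫ s : ℝ, s ^ 2 ∂(gm p)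

theorem m2_nonneg (p : ℝ) : 0 ≤ m2 p := integral_nonneg fun s => sq_nonneg s

theorem m2_int {p : ℝ} (hp1 : 1 ≤ p) : Integrable (fun s : ℝ => s ^ 2) (gm p) := by
  have h := (gm_abs hp1 (by norm_num : (0 : ℝ) ≤ 2)).1
  refine h.congr (Eventually.of_forall fun s => ?_)
  simp only [Real.rpow_two, sq_abs]

/-- a continuous function with variance zero is constant -/
theorem var_zero {p : ℝ} (hp1 : 1 ≤ p) {f : ℝ → ℝ} (hf : Continuous f) (hm : MemLp f 2 (gm p))
    (h0 : Var[f; gm p] = 0) : ∃ c, ∀ s, f s = c := by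
  have := gm_prob hp1
  have h1 : eVar[f; gm p] = 0 := by
    have h2 : eVar[f; gm p] ≠ ⊤ := hm.evariance_ne_top
    unfold variance at h0
    rcases (ENNReal.toReal_eq_zero_iff _).1 h0 with h | h
    · exact h
    · exact absurd h h2
  rw [evariance_eq_zero_iff hf.measurable.aemeasurable] at h1
  have h3 : (volume : Measure ℝ) ≪ gm p := by
    unfold gm
    refine withDensity_absolutelyContinuous' (gm_meas hp1).aemeasurable ?_
    refine Eventually.of_forall fun s => ?_
    exact (ENNReal.ofReal_pos.2 (div_pos (hp_pos p s) (Zp_pos hp1))).ne'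
  have h4 := h3.ae_eq h1
  have h5 := Continuous.ae_eq_iff_eq volume hf continuous_const |>.1 h4
  exact ⟨_, fun s => congrFun h5 s⟩

theorem cv {p : ℝ} (hp1 : 1 ≤ p) : 0 < Var[fun s : ℝ => |s| ^ p; gm p] := by
  refine lt_of_le_of_ne (variance_nonneg _ _) fun h => ?_
  obtain ⟨c, hc⟩ := var_zero hp1 (cont_ap hp1) (memp hp1 (by linarith)) h.symm
  have h0 := hc 0
  have h1 := hc 1
  simp only [abs_zero, abs_one, Real.one_rpow] at h0 h1
  rw [Real.zero_rpow (by linarith)] at h0
  linarith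

theorem var_b {p : ℝ} (hp1 : 1 ≤ p) (b : ℝ) :
    Var[fun s : ℝ => Real.cos s - b * |s| ^ p; gm p] = Var[Real.cos; gm p] -
      2 * (b * cov[Real.cos, fun s : ℝ => |s| ^ p; gm p]) + b ^ 2 * Var[fun s : ℝ => |s| ^ p; gm p] := by
  have := gm_prob hp1
  have h := variance_fun_sub (X := Real.cos) (Y := fun s : ℝ => b * |s| ^ p) (memc hp1)
    ((memp hp1 (by linarith)).const_mul b)
  rw [h, covariance_const_mul_right, variance_const_mul]

/-- the residual variance -/
theorem res_exists {p : ℝ} (hp1 : 1 ≤ p) : ∃ res : ℝ, 0 < res ∧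
    ∀ b : ℝ, res ≤ Var[fun s : ℝ => Real.cos s - b * |s| ^ p; gm p] := by
  have hV := cv hp1
  obtain ⟨V, hVd⟩ : ∃ V, V = Var[fun s : ℝ => |s| ^ p; gm p] := ⟨_, rfl⟩
  obtain ⟨C, hCd⟩ : ∃ C, C = cov[Real.cos, fun s : ℝ => |s| ^ p; gm p] := ⟨_, rfl⟩
  rw [← hVd] at hV
  refine ⟨Var[fun s : ℝ => Real.cos s - (C / V) * |s| ^ p; gm p], ?_, fun b => ?_⟩
  · refine lt_of_le_of_ne (variance_nonneg _ _) fun h => ?_
    have hm : MemLp (fun s : ℝ => Real.cos s - (C / V) * |s| ^ p) 2 (gm p) :=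
      (memc hp1).sub ((memp hp1 (by linarith)).const_mul (C / V))
    obtain ⟨c, hc⟩ := var_zero (f := fun s : ℝ => Real.cos s - (C / V) * |s| ^ p) hp1
      (Real.continuous_cos.sub (continuous_const.mul (cont_ap hp1))) hm h.symm
    have h0 := hc 0
    have h1 := hc Real.pi
    have h2 := hc (2 * Real.pi)
    rw [abs_zero, Real.zero_rpow (by linarith), mul_zero, Real.cos_zero] at h0
    rw [Real.cos_pi] at h1
    rw [Real.cos_two_pi] at h2
    have hpi := Real.pi_pos
    rw [abs_of_pos hpi] at h1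
    rw [abs_of_pos (by linarith)] at h2
    have h3 : 0 < (2 * Real.pi) ^ p := Real.rpow_pos_of_pos (by linarith) _
    have h4 : (C / V) * (2 * Real.pi) ^ p = 0 := by linarith
    have h5 : C / V = 0 := by
      rcases mul_eq_zero.1 h4 with h | h
      · exact h
      · exact absurd h h3.ne'
    rw [h5, zero_mul] at h1
    linarith
  · rw [var_b hp1, var_b hp1, ← hVd, ← hCd]
    have h1 : (C / V) ^ 2 * V = C ^ 2 / V := by field_simp
    have h2 : C / V * C = C ^ 2 / V := by ring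
    have h3 : 0 ≤ (b * V - C) ^ 2 / V := by positivity
    have h4 : (b * V - C) ^ 2 / V = b ^ 2 * V - 2 * (b * C) + C ^ 2 / V := by
      field_simp
      ring
    rw [h1, h2]
    linarith

end Pool.Agent.T2H73.LB
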