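import Pool.Agent.T2H73.LB.Lim
import Pool.Agent.Y427.PV.Rad
import Pool.Agent.Y388.PV.Gam
import Pool.Agent.Y506.PV.Mix

/-!
# `l_p` balls cut by signed order cones
-/

set_option autoImplicit false

namespace Pool.Agent.T2H73.LB

open MeasureTheory Set Filter Topology
open scoped ENNReal InnerProductSpace
open Pool.Agent.W695.KH (Eu)
open Pool.Agent.Y506.RG (EW VW Adm)
open Pool.Agent.Y506.PV (wPhi Hom ind)
open Pool.Agent.T2H73.SB

variable {n : ℕ}

/-- the density -/
noncomputable def hp (p s : ℝ) : ℝ := Real.exp (-(|s| ^ p))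

theorem hp_even (p s : ℝ) : hp p (-s) = hp p s := by
  unfold hp
  rw [abs_neg]

theorem hp_pos (p s : ℝ) : 0 < hp p s := Real.exp_pos _

theorem cont_ap {p : ℝ} (hp1 : 1 ≤ p) : Continuous fun s : ℝ => |s| ^ p :=
  continuous_abs.rpow_const fun _ => Or.inr (by linarith)

theorem hp_cont {p : ℝ} (hp1 : 1 ≤ p) : Continuous (hp p) :=
  Real.continuous_exp.comp (cont_ap hp1).neg

theorem pow_diff {p : ℝ} (hp1 : 1 ≤ p) {t s : ℝ} (ht : 0 ≤ t) (hts : t ≤ s) :
    s - t - 1 ≤ s ^ p - t ^ p := by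
  have hs : 0 ≤ s := ht.trans hts
  rcases le_total 1 t with h | h
  · -- superadditivity
    have ht0 : 0 < t := by linarith
    have h1 : 1 + p * (s / t - 1) ≤ (s / t) ^ p := by
      have := one_add_mul_self_le_rpow_one_add (s := s / t - 1) (by
        have : 0 ≤ s / t := div_nonneg hs ht0.le
        linarith) hp1
      rwa [add_sub_cancel] at this
    have h2 : (s / t) ^ p = s ^ p / t ^ p := Real.div_rpow hs ht0.le p
    have h3 : 0 < t ^ p := Real.rpow_pos_of_pos ht0 p
    rw [h2, le_div_iff₀ h3] at h1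
    have h4 : t ≤ t ^ p := by
      conv_lhs => rw [← Real.rpow_one t]
      exact Real.rpow_le_rpow_of_exponent_le h hp1
    have h5 : 0 ≤ s / t - 1 := by
      rw [sub_nonneg, le_div_iff₀ ht0]
      linarith
    have h6 : (s / t - 1) * t = s - t := by field_simp
    have h7 : (s / t - 1) * t ≤ p * (s / t - 1) * t ^ p := by
      calc (s / t - 1) * t ≤ (s / t - 1) * t ^ p := mul_le_mul_of_nonneg_left h4 h5
        _ ≤ p * ((s / t - 1) * t ^ p) := le_mul_of_one_le_left (mul_nonneg h5 h3.le) hp1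
        _ = _ := by ring
    nlinarith
  · have h1 : t ^ p ≤ 1 := Real.rpow_le_one ht h (by linarith)
    rcases le_total 1 s with h2 | h2
    · have h3 : s ≤ s ^ p := by
        conv_lhs => rw [← Real.rpow_one s]
        exact Real.rpow_le_rpow_of_exponent_le h2 hp1
      linarith
    · have h3 : t ^ p ≤ s ^ p := Real.rpow_le_rpow ht hts (by linarith)
      linarith

theorem hp_tail {p : ℝ} (hp1 : 1 ≤ p) (t T : ℝ) (ht : 0 ≤ t) (htT : t ≤ T) :
    ∫ s in t..T, hp p s ≤ 3 * hp p t := by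
  have h1 : ∫ s in t..T, hp p s ≤ ∫ s in t..T, (hp p t * (Real.exp 1 * Real.exp t)) *
      Real.exp (-s) := by
    refine intervalIntegral.integral_mono_on htT ((hp_cont hp1).intervalIntegrable _ _)
      (Continuous.intervalIntegrable (by fun_prop) _ _) ?_
    intro s hs
    unfold hp
    rw [← Real.exp_add, ← Real.exp_add, ← Real.exp_add, Real.exp_le_exp,
      abs_of_nonneg ht, abs_of_nonneg (ht.trans hs.1)]
    have := pow_diff hp1 ht hs.1
    linarith
  have h2 : ∫ s in t..T, Real.exp (-s) = Real.exp (-t) - Real.exp (-T) := by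
    have h3 : ∀ s ∈ uIcc t T, HasDerivAt (fun s : ℝ => -Real.exp (-s)) (Real.exp (-s)) s := by
      intro s _
      have := (hasDerivAt_neg s).exp.fun_neg
      simpa using this
    rw [intervalIntegral.integral_eq_sub_of_hasDerivAt h3
      (Continuous.intervalIntegrable (by fun_prop) _ _)]
    ring
  rw [intervalIntegral.integral_const_mul, h2] at h1
  refine h1.trans ?_
  have h4 : Real.exp t * Real.exp (-t) = 1 := by rw [← Real.exp_add, add_neg_cancel, Real.exp_zero]
  have h5 : 0 < Real.exp t * Real.exp (-T) := by positivity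
  have h6 : Real.exp 1 < 3 := by have := Real.exp_one_lt_d9; linarith
  have h7 : Real.exp 1 * Real.exp t * (Real.exp (-t) - Real.exp (-T)) ≤ 3 := by
    have h8 : Real.exp t * (Real.exp (-t) - Real.exp (-T)) ≤ 1 := by
      rw [mul_sub, h4]
      linarith
    nlinarith [Real.exp_pos 1]
  calc hp p t * (Real.exp 1 * Real.exp t) * (Real.exp (-t) - Real.exp (-T)) =
      hp p t * (Real.exp 1 * Real.exp t * (Real.exp (-t) - Real.exp (-T))) := by ring
    _ ≤ hp p t * 3 := mul_le_mul_of_nonneg_left h7 (hp_pos p t).le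
    _ = _ := by ring

/-! ### the body -/

/-- the sum of the powers -/
noncomputable def sp (p : ℝ) (x : Eu (Fin n)) : ℝ := ∑ i, |x i| ^ p

theorem sp_nonneg (p : ℝ) (x : Eu (Fin n)) : 0 ≤ sp p x :=
  Finset.sum_nonneg fun _ _ => Real.rpow_nonneg (abs_nonneg _) _

theorem sp_cont {p : ℝ} (hp1 : 1 ≤ p) : Continuous (sp p : Eu (Fin n) → ℝ) := by
  unfold sp
  refine continuous_finsetSum _ fun i _ => ?_
  exact (cont_ap hp1).comp (by fun_prop : Continuous fun x : Eu (Fin n) => x i)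

theorem sp_smul (p : ℝ) {r : ℝ} (hr : 0 < r) (x : Eu (Fin n)) : sp p (r • x) = r ^ p * sp p x := by
  unfold sp
  rw [Finset.mul_sum]
  refine Finset.sum_congr rfl fun i _ => ?_
  rw [PiLp.smul_apply, smul_eq_mul, abs_mul, abs_of_pos hr,
    Real.mul_rpow hr.le (abs_nonneg _)]

theorem CE_smul (R : Fin n × Bool → Fin n × Bool → Prop) {r : ℝ} (hr : 0 < r) (x : Eu (Fin n)) :
    r • x ∈ CE R ↔ x ∈ CE R := by
  unfold CE CB
  simp only [mem_ofPred_eq]
  refine forall_congr' fun l => forall_congr' fun m => imp_congr_right fun _ => ?_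
  have e : ∀ l : Fin n × Bool, sv (WithLp.ofLp (r • x)) l = r * sv (WithLp.ofLp x) l := by
    intro l
    unfold sv
    simp only [WithLp.ofLp_smul, Pi.smul_apply, smul_eq_mul]
    ring
  rw [e, e]
  exact mul_le_mul_iff_of_pos_left hr

/-- the gauge -/
noncomputable def PhC (p : ℝ) (R : Fin n × Bool → Fin n × Bool → Prop) (x : Eu (Fin n)) : ℝ≥0∞ :=
  open Classical in if x ∈ CE R then ENNReal.ofReal (sp p x) else ⊤

/-- the body -/
def KC (p : ℝ) (R : Fin n × Bool → Fin n × Bool → Prop) : Set (Eu (Fin n)) :=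
  {x | x ∈ CE R ∧ sp p x ≤ 1}

theorem KC_eq (p : ℝ) (R : Fin n × Bool → Fin n × Bool → Prop) :
    {x | PhC p R x ≤ 1} = KC p R := by
  classical
  ext x
  unfold PhC KC
  simp only [mem_ofPred_eq]
  by_cases hx : x ∈ CE R
  · rw [if_pos hx, ENNReal.ofReal_le_one]
    simp [hx]
  · rw [if_neg hx]
    simp [hx]

theorem KC_closed {p : ℝ} (hp1 : 1 ≤ p) (R : Fin n × Bool → Fin n × Bool → Prop) :
    IsClosed (KC p R) :=
  (closed_CE R).inter (isClosed_le (sp_cont hp1) continuous_const)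

theorem KC_coord {p : ℝ} (hp1 : 1 ≤ p) {R : Fin n × Bool → Fin n × Bool → Prop} {x : Eu (Fin n)}
    (hx : x ∈ KC p R) (i : Fin n) : |x i| ≤ 1 := by
  by_contra h
  rw [not_le] at h
  have h1 : 1 < |x i| ^ p := Real.one_lt_rpow h (by linarith)
  have h2 : |x i| ^ p ≤ sp p x :=
    Finset.single_le_sum (f := fun j => |x j| ^ p) (fun j _ => Real.rpow_nonneg (abs_nonneg _) _)
      (Finset.mem_univ i)
  exact absurd (h1.trans_le h2) (not_lt.2 hx.2)

theorem KC_norm {p : ℝ} (hp1 : 1 ≤ p) {R : Fin n × Bool → Fin n × Bool → Prop} {x : Eu (Fin n)}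
    (hx : x ∈ KC p R) : ‖x‖ ≤ Real.sqrt n := by
  rw [EuclideanSpace.norm_eq]
  refine Real.sqrt_le_sqrt ?_
  calc ∑ i, ‖x i‖ ^ 2 ≤ ∑ _i : Fin n, (1 : ℝ) := by
        refine Finset.sum_le_sum fun i _ => ?_
        rw [Real.norm_eq_abs]
        exact pow_le_one₀ (abs_nonneg _) (KC_coord hp1 hx i)
    _ = n := by simp

theorem KC_bdd {p : ℝ} (hp1 : 1 ≤ p) (R : Fin n × Bool → Fin n × Bool → Prop) :
    Bornology.IsBounded (KC p R) := by
  refine (Metric.isBounded_closedBall (x := (0 : Eu (Fin n))) (r := Real.sqrt n)).subset ?_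
  intro x hx
  rw [mem_closedBall_zero_iff]
  exact KC_norm hp1 hx

theorem KC_compact {p : ℝ} (hp1 : 1 ≤ p) (R : Fin n × Bool → Fin n × Bool → Prop) :
    IsCompact (KC p R) :=
  Metric.isCompact_of_isClosed_isBounded (KC_closed hp1 R) (KC_bdd hp1 R)

theorem KC_convex {p : ℝ} (hp1 : 1 ≤ p) (R : Fin n × Bool → Fin n × Bool → Prop) :
    Convex ℝ (KC p R) := by
  have h1 : Convex ℝ (CE R : Set (Eu (Fin n))) := by
    intro x hx y hy a b ha hb hab l m hlm
    have e : ∀ l : Fin n × Bool, sv (WithLp.ofLp (a • x + b • y)) l =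
        a * sv (WithLp.ofLp x) l + b * sv (WithLp.ofLp y) l := by
      intro l
      unfold sv
      simp only [WithLp.ofLp_add, WithLp.ofLp_smul, Pi.add_apply, Pi.smul_apply, smul_eq_mul]
      ring
    rw [e, e]
    exact add_le_add (mul_le_mul_of_nonneg_left (hx l m hlm) ha)
      (mul_le_mul_of_nonneg_left (hy l m hlm) hb)
  have h2 : ConvexOn ℝ univ (sp p : Eu (Fin n) → ℝ) := by
    refine ⟨convex_univ, ?_⟩
    intro x _ y _ a b ha hb hab
    unfold sp
    rw [smul_eq_mul, smul_eq_mul, Finset.mul_sum, Finset.mul_sum, ← Finset.sum_add_distrib]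
    refine Finset.sum_le_sum fun i _ => ?_
    have h3 := (convexOn_rpow hp1).2 (mem_Ici.2 (abs_nonneg (x i))) (mem_Ici.2 (abs_nonneg (y i)))
      ha hb hab
    simp only [smul_eq_mul] at h3
    refine le_trans ?_ h3
    refine Real.rpow_le_rpow (abs_nonneg _) ?_ (by linarith)
    have : (a • x + b • y : Eu (Fin n)) i = a * x i + b * y i := by simp
    rw [this]
    refine (abs_add_le _ _).trans ?_
    rw [abs_mul, abs_mul, abs_of_nonneg ha, abs_of_nonneg hb]
  have h3 : KC p R = CE R ∩ {x ∈ univ | sp p x ≤ 1} := by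
    ext x
    simp [KC]
  rw [h3]
  exact h1.inter (h2.convex_le 1)

theorem hom_PhC {p : ℝ} (hp1 : 1 ≤ p) (R : Fin n × Bool → Fin n × Bool → Prop)
    (hint : (interior (KC p R)).Nonempty) : Hom p (PhC p R) := by
  classical
  refine ⟨?_, ?_, ?_, ?_⟩
  · unfold PhC
    exact Measurable.ite (closed_CE R).measurableSet
      (ENNReal.measurable_ofReal.comp (sp_cont hp1).measurable) measurable_const
  · intro r x hr
    unfold PhC
    by_cases hx : x ∈ CE R
    · rw [if_pos hx, if_pos ((CE_smul R hr x).2 hx), sp_smul p hr,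
        ENNReal.ofReal_mul (Real.rpow_nonneg hr.le _)]
    · rw [if_neg hx, if_neg (fun h => hx ((CE_smul R hr x).1 h)), ENNReal.mul_top]
      exact (ENNReal.ofReal_pos.2 (Real.rpow_pos_of_pos hr p)).ne'
  · rw [KC_eq]
    exact KC_bdd hp1 R
  · rw [KC_eq]
    exact lt_of_lt_of_le (isOpen_interior.measure_pos volume hint) (measure_mono interior_subset)

theorem wPhi_eq (p : ℝ) (R : Fin n × Bool → Fin n × Bool → Prop) :
    wPhi (PhC p R) = wB R (hp p) := by
  classical
  funext x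
  unfold wPhi wB PhC
  by_cases hx : x ∈ CE R
  · rw [if_pos hx, indicator_of_mem hx, if_neg ENNReal.ofReal_ne_top,
      ENNReal.toReal_ofReal (sp_nonneg p x)]
    unfold hp sp
    rw [← Real.exp_sum, Finset.sum_neg_distrib]
  · rw [if_neg hx, indicator_of_notMem hx, if_pos rfl]

theorem adms {p : ℝ} (hp1 : 1 ≤ p) (hn : 1 ≤ n) (R : Fin n × Bool → Fin n × Bool → Prop)
    (hint : (interior (KC p R)).Nonempty) : Adm (wB R (hp p)) ∧ Adm (ind (KC p R)) := by
  obtain ⟨κ', _, h⟩ := Pool.Agent.Y427.PV.rad Pool.Agent.Y506.PV.Mx.mix Pool.Agent.Y388.PV.gam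
    p 1 1 hp1 one_pos one_pos
  obtain ⟨h1, h2, _⟩ := h n (PhC p R) hn (hom_PhC hp1 R hint)
  rw [wPhi_eq] at h1
  rw [KC_eq] at h2
  exact ⟨h1, h2⟩

/-- **Poincare's inequality for the density** -/
theorem poin {p : ℝ} (hp1 : 1 ≤ p) (R : Fin n × Bool → Fin n × Bool → Prop)
    (hA : Adm (wB R (hp p))) {g : Eu (Fin n) → ℝ}
    (hg : ContDiff ℝ 1 g) {L : ℝ} (hL : ∀ x, ‖fderiv ℝ g x‖ ≤ L) :
    VW (wB R (hp p)) g ≤ 36 * EW (wB R (hp p)) fun x => ‖fderiv ℝ g x‖ ^ 2 := by
  have h := poinB (C := 3) (by norm_num) (hp_even p) (hp_pos p) (hp_cont hp1)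
    (hb_of (hp_even p) (hp_pos p) (hp_cont hp1) fun t T h1 h2 => hp_tail hp1 t T h1 h2) R hA hg hL
  norm_num at h
  exact h

end Pool.Agent.T2H73.LB
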