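import Pool.Agent.T2H73.LB.Sym

/-!
# The radial variable
-/

set_option autoImplicit false

namespace Pool.Agent.T2H73.LB

open MeasureTheory Set Filter Topology ProbabilityTheory
open scoped ENNReal InnerProductSpace
open Pool.Agent.Y388.PV (Wr Wr_nonneg mom_int mom_val)

variable {n : ℕ}

/-- parameter of the Gamma distribution -/
noncomputable def aN (p : ℝ) (n : ℕ) : ℝ := (n : ℝ) / p + 1

/-- typical radius -/
noncomputable def RR (p : ℝ) (n : ℕ) : ℝ := aN p n ^ (1 / p)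

/-- total mass -/
noncomputable def BB (p : ℝ) (n : ℕ) : ℝ := Real.Gamma (aN p n)

theorem aN_one {p : ℝ} (hp1 : 1 ≤ p) (n : ℕ) : 1 ≤ aN p n := by
  unfold aN
  have : 0 ≤ (n : ℝ) / p := by positivity
  linarith

theorem BB_pos {p : ℝ} (hp1 : 1 ≤ p) (n : ℕ) : 0 < BB p n :=
  Real.Gamma_pos_of_pos (by have := aN_one hp1 n; linarith)

theorem RR_pos {p : ℝ} (hp1 : 1 ≤ p) (n : ℕ) : 0 < RR p n :=
  Real.rpow_pos_of_pos (by have := aN_one hp1 n; linarith) _

theorem RR_pow {p : ℝ} (hp1 : 1 ≤ p) (n : ℕ) : RR p n ^ p = aN p n := by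
  have h := aN_one hp1 n
  unfold RR
  rw [← Real.rpow_mul (by linarith), one_div_mul_cancel (by linarith), Real.rpow_one]

/-- second moments of the radius -/
theorem rad2 {p : ℝ} (hp : 1 ≤ p) (hn : 1 ≤ n) :
    (IntegrableOn (fun r => (r - RR p n) ^ 2 * Wr p n r) (Ioi 0)) ∧
    (IntegrableOn (fun r => r ^ 2 * Wr p n r) (Ioi 0)) ∧
    ∫ r in Ioi (0 : ℝ), (r - RR p n) ^ 2 * Wr p n r ≤ RR p n ^ 2 * BB p n / aN p n ∧
    ∫ r in Ioi (0 : ℝ), r ^ 2 * Wr p n r ≤ 4 * RR p n ^ 2 * BB p n ∧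
    RR p n ^ 2 * BB p n / 2 ≤ ∫ r in Ioi (0 : ℝ), r ^ 2 * Wr p n r := by
  have hn' : (1 : ℝ) ≤ n := by exact_mod_cast hn
  have hp0 : 0 < p := by linarith
  obtain ⟨a, ha⟩ : ∃ a : ℝ, a = (n : ℝ) / p + 1 := ⟨_, rfl⟩
  have ha1 : 1 ≤ a := by
    have : 0 ≤ (n : ℝ) / p := by positivity
    linarith
  have ha0 : 0 < a := by linarith
  obtain ⟨B, hB⟩ : ∃ B : ℝ, B = Real.Gamma a := ⟨_, rfl⟩
  have hB0 : 0 < B := hB ▸ Real.Gamma_pos_of_pos ha0
  obtain ⟨R, hR⟩ : ∃ R : ℝ, R = a ^ (1 / p) := ⟨_, rfl⟩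
  have hR0 : 0 < R := hR ▸ Real.rpow_pos_of_pos ha0 _
  have hRp : R ^ p = a := by
    rw [hR, ← Real.rpow_mul ha0.le, one_div_mul_cancel hp0.ne', Real.rpow_one]
  have E1 : aN p n = a := by rw [ha]; rfl
  have E2 : RR p n = R := by unfold RR; rw [E1, hR]
  have E3 : BB p n = B := by unfold BB; rw [E1, hB]
  rw [E1, E2, E3]
  -- moments
  have hM0 : ∫ r in Ioi (0 : ℝ), r ^ (0 : ℝ) * Wr p n r = B := by
    rw [mom_val hp n hn 0 le_rfl, zero_div, add_zero, ← ha, ← hB]
  have hM1 : ∫ r in Ioi (0 : ℝ), r ^ p * Wr p n r = a * B := by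
    rw [mom_val hp n hn p hp0.le, div_self hp0.ne', ← ha, Real.Gamma_add_one ha0.ne', ← hB]
  have hM2 : ∫ r in Ioi (0 : ℝ), r ^ (2 * p) * Wr p n r = (a + 1) * (a * B) := by
    rw [mom_val hp n hn (2 * p) (by linarith), mul_div_cancel_right₀ _ hp0.ne', ← ha,
      show a + 2 = (a + 1) + 1 by ring, Real.Gamma_add_one (by linarith), Real.Gamma_add_one ha0.ne',
      ← hB]
  have i0 := mom_int hp n hn 0 le_rfl
  have i1 := mom_int hp n hn 1 zero_le_one
  have i2 := mom_int hp n hn 2 zero_le_two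
  have ip := mom_int hp n hn p hp0.le
  have ipp := mom_int hp n hn (2 * p) (by linarith)
  -- (r - R)^2
  have iA : IntegrableOn (fun r => (r - R) ^ 2 * Wr p n r) (Ioi 0) := by
    have h1 := (i2.sub (i1.const_mul (2 * R))).add (i0.const_mul (R ^ 2))
    refine IntegrableOn.congr_fun h1 (fun r hr => ?_) measurableSet_Ioi
    simp only [Pi.add_apply, Pi.sub_apply, Real.rpow_zero, Real.rpow_one, Real.rpow_two]
    ring
  have iB : IntegrableOn (fun r => R ^ 2 * ((r ^ p) / a - 1) ^ 2 * Wr p n r) (Ioi 0) ∧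
      ∫ r in Ioi (0 : ℝ), R ^ 2 * ((r ^ p) / a - 1) ^ 2 * Wr p n r = R ^ 2 * B / a := by
    have h1 := ((ipp.const_mul (R ^ 2 / a ^ 2)).sub (ip.const_mul (2 * R ^ 2 / a))).add (i0.const_mul (R ^ 2))
    have h2 : ∀ r ∈ Ioi (0 : ℝ), R ^ 2 / a ^ 2 * (r ^ (2 * p) * Wr p n r) -
        2 * R ^ 2 / a * (r ^ p * Wr p n r) + R ^ 2 * (r ^ (0 : ℝ) * Wr p n r) =
        R ^ 2 * ((r ^ p) / a - 1) ^ 2 * Wr p n r := by
      intro r hr
      have h3 : r ^ (2 * p) = (r ^ p) ^ 2 := by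
        rw [mul_comm, Real.rpow_mul (le_of_lt hr), Real.rpow_two]
      rw [h3, Real.rpow_zero]
      field_simp
      ring
    refine ⟨IntegrableOn.congr_fun h1 h2 measurableSet_Ioi, ?_⟩
    rw [← setIntegral_congr_fun measurableSet_Ioi h2]
    have e1 := integral_add ((ipp.const_mul (R ^ 2 / a ^ 2)).sub (ip.const_mul (2 * R ^ 2 / a))) (i0.const_mul (R ^ 2))
    have e2 := integral_sub (ipp.const_mul (R ^ 2 / a ^ 2)) (ip.const_mul (2 * R ^ 2 / a))
    simp only [Pi.sub_apply] at e1 e2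
    rw [e1, e2, integral_const_mul, integral_const_mul, integral_const_mul, hM0, hM1, hM2]
    field_simp
    ring
  have hpt : ∀ r ∈ Ioi (0 : ℝ), (r - R) ^ 2 ≤ R ^ 2 * ((r ^ p) / a - 1) ^ 2 := by
    intro r hr
    have hr0 : 0 < r := hr
    set x : ℝ := r / R with hx
    have hx0 : 0 < x := div_pos hr0 hR0
    have h1 : r = R * x := by rw [hx]; field_simp
    have h2 : r ^ p / a = x ^ p := by
      rw [hx, Real.div_rpow hr0.le hR0.le, hRp]
    rw [h2, h1, show (R * x - R) ^ 2 = R ^ 2 * (x - 1) ^ 2 by ring]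
    apply mul_le_mul_of_nonneg_left _ (by positivity)
    rcases le_total 1 x with h | h
    · have h3 : x ≤ x ^ p := by
        conv_lhs => rw [← Real.rpow_one x]
        exact Real.rpow_le_rpow_of_exponent_le h hp
      nlinarith
    · have h3 : x ^ p ≤ x := by
        conv_rhs => rw [← Real.rpow_one x]
        exact Real.rpow_le_rpow_of_exponent_ge hx0 h hp
      nlinarith
  have hA : ∫ r in Ioi (0 : ℝ), (r - R) ^ 2 * Wr p n r ≤ R ^ 2 * B / a := by
    rw [← iB.2]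
    apply setIntegral_mono_on iA iB.1 measurableSet_Ioi
    intro r hr
    exact mul_le_mul_of_nonneg_right (hpt r hr) (Wr_nonneg hp n hr)
  have hC : ∫ r in Ioi (0 : ℝ), r ^ 2 * Wr p n r ≤ 4 * R ^ 2 * B := by
    have h1 : IntegrableOn (fun r => 2 * ((r - R) ^ 2 * Wr p n r) + 2 * R ^ 2 * (r ^ (0 : ℝ) * Wr p n r)) (Ioi 0) :=
      (iA.const_mul 2).add (i0.const_mul (2 * R ^ 2))
    have h2 : ∫ r in Ioi (0 : ℝ), r ^ 2 * Wr p n r ≤
        ∫ r in Ioi (0 : ℝ), (2 * ((r - R) ^ 2 * Wr p n r) + 2 * R ^ 2 * (r ^ (0 : ℝ) * Wr p n r)) := by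
      apply setIntegral_mono_on _ h1 measurableSet_Ioi
      · intro r hr
        have h3 := Wr_nonneg hp n hr
        rw [Real.rpow_zero]
        have h4 : r ^ 2 ≤ 2 * (r - R) ^ 2 + 2 * R ^ 2 := by nlinarith [sq_nonneg (r - 2 * R)]
        nlinarith [mul_le_mul_of_nonneg_right h4 h3]
      · refine i2.congr_fun (fun r _ => ?_) measurableSet_Ioi
        simp only [Real.rpow_two]
    rw [integral_add (iA.const_mul 2) (i0.const_mul (2 * R ^ 2)), integral_const_mul, integral_const_mul,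
      hM0] at h2
    have h5 : R ^ 2 * B / a ≤ R ^ 2 * B := div_le_self (by positivity) ha1
    linarith
  have i2' : IntegrableOn (fun r => r ^ 2 * Wr p n r) (Ioi 0) := by
    refine i2.congr_fun (fun r _ => ?_) measurableSet_Ioi
    simp only [Real.rpow_two]
  have hD : R ^ 2 * B / 2 ≤ ∫ r in Ioi (0 : ℝ), r ^ 2 * Wr p n r := by
    rcases le_total p 2 with hp2 | hp2
    · have h1 : IntegrableOn (fun r => (R ^ 2 * (2 / p) / a) * (r ^ p * Wr p n r) +
          (R ^ 2 * (1 - 2 / p)) * (r ^ (0 : ℝ) * Wr p n r)) (Ioi 0) :=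
        (ip.const_mul _).add (i0.const_mul _)
      have h2 : ∫ r in Ioi (0 : ℝ), ((R ^ 2 * (2 / p) / a) * (r ^ p * Wr p n r) +
          (R ^ 2 * (1 - 2 / p)) * (r ^ (0 : ℝ) * Wr p n r)) ≤ ∫ r in Ioi (0 : ℝ), r ^ 2 * Wr p n r := by
        apply setIntegral_mono_on h1 i2' measurableSet_Ioi
        intro r hr
        have hr0 : 0 < r := hr
        have h3 := Wr_nonneg hp n hr
        set x : ℝ := r / R with hx
        have hx0 : 0 < x := div_pos hr0 hR0
        have h4 : r = R * x := by rw [hx]; field_simp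
        have h5 : r ^ p / a = x ^ p := by
          rw [hx, Real.div_rpow hr0.le hR0.le, hRp]
        have h6 : 1 + (2 / p) * (x ^ p - 1) ≤ x ^ 2 := by
          have h7 := one_add_mul_self_le_rpow_one_add (s := x ^ p - 1)
            (by have := Real.rpow_pos_of_pos hx0 p; linarith) (p := 2 / p) (by rw [le_div_iff₀ hp0]; linarith)
          rw [add_sub_cancel, ← Real.rpow_mul hx0.le, mul_div_cancel₀ _ hp0.ne', Real.rpow_two] at h7
          exact h7
        have h8 : (R ^ 2 * (2 / p) / a) * (r ^ p * Wr p n r) +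
          (R ^ 2 * (1 - 2 / p)) * (r ^ (0 : ℝ) * Wr p n r) =
            R ^ 2 * (1 + (2 / p) * (r ^ p / a - 1)) * Wr p n r := by
          rw [Real.rpow_zero]
          ring
        have h10 : r ^ 2 = R ^ 2 * x ^ 2 := by
          calc r ^ 2 = (R * x) ^ 2 := by rw [← h4]
            _ = R ^ 2 * x ^ 2 := by ring
        rw [h8, h5, h10]
        exact mul_le_mul_of_nonneg_right (mul_le_mul_of_nonneg_left h6 (by positivity)) h3
      rw [integral_add (ip.const_mul _) (i0.const_mul _), integral_const_mul, integral_const_mul,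
        hM0, hM1] at h2
      have h9 : R ^ 2 * (2 / p) / a * (a * B) + R ^ 2 * (1 - 2 / p) * B = R ^ 2 * B := by
        field_simp
        ring
      rw [h9] at h2
      have : 0 ≤ R ^ 2 * B := by positivity
      linarith
    · have h1 : IntegrableOn (fun r => (R ^ 2 / a) * (r ^ p * Wr p n r) -
          (R ^ 2 / (4 * a ^ 2)) * (r ^ (2 * p) * Wr p n r)) (Ioi 0) :=
        (ip.const_mul _).sub (ipp.const_mul _)
      have h2 : ∫ r in Ioi (0 : ℝ), ((R ^ 2 / a) * (r ^ p * Wr p n r) -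
          (R ^ 2 / (4 * a ^ 2)) * (r ^ (2 * p) * Wr p n r)) ≤ ∫ r in Ioi (0 : ℝ), r ^ 2 * Wr p n r := by
        apply setIntegral_mono_on h1 i2' measurableSet_Ioi
        intro r hr
        have hr0 : 0 < r := hr
        have h3 := Wr_nonneg hp n hr
        set x : ℝ := r / R with hx
        have hx0 : 0 < x := div_pos hr0 hR0
        have h4 : r = R * x := by rw [hx]; field_simp
        have h5 : r ^ p / a = x ^ p := by
          rw [hx, Real.div_rpow hr0.le hR0.le, hRp]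
        have h6 : x ^ p - (x ^ p) ^ 2 / 4 ≤ x ^ 2 := by
          rcases le_total 1 x with h | h
          · have h7 : 1 ≤ x ^ 2 := one_le_pow₀ h
            nlinarith [sq_nonneg (x ^ p / 2 - 1)]
          · have h7 : x ^ p ≤ x ^ 2 := by
              rw [← Real.rpow_two]
              exact Real.rpow_le_rpow_of_exponent_ge hx0 h hp2
            nlinarith [sq_nonneg (x ^ p)]
        have h8 : (R ^ 2 / a) * (r ^ p * Wr p n r) -
          (R ^ 2 / (4 * a ^ 2)) * (r ^ (2 * p) * Wr p n r) =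
            R ^ 2 * (r ^ p / a - (r ^ p / a) ^ 2 / 4) * Wr p n r := by
          have h9 : r ^ (2 * p) = (r ^ p) ^ 2 := by
            rw [mul_comm, Real.rpow_mul hr0.le, Real.rpow_two]
          rw [h9]
          field_simp
        have h10 : r ^ 2 = R ^ 2 * x ^ 2 := by
          calc r ^ 2 = (R * x) ^ 2 := by rw [← h4]
            _ = R ^ 2 * x ^ 2 := by ring
        rw [h8, h5, h10]
        exact mul_le_mul_of_nonneg_right (mul_le_mul_of_nonneg_left h6 (by positivity)) h3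
      rw [integral_sub (ip.const_mul _) (ipp.const_mul _), integral_const_mul, integral_const_mul,
        hM1, hM2] at h2
      have h9 : R ^ 2 / a * (a * B) - R ^ 2 / (4 * a ^ 2) * ((a + 1) * (a * B)) =
          R ^ 2 * B * (3 / 4 - 1 / (4 * a)) := by
        field_simp
        ring
      rw [h9] at h2
      have h10 : 1 / (4 * a) ≤ 1 / 4 := by
        apply one_div_le_one_div_of_le (by norm_num)
        linarith
      have h11 : 0 ≤ R ^ 2 * B := by positivity
      nlinarith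
  exact ⟨iA, i2', hA, hC, hD⟩

/-- the normalised radial measure -/
noncomputable def rh (p : ℝ) (n : ℕ) : Measure ℝ :=
  (volume.restrict (Ioi (0 : ℝ))).withDensity fun r => ENNReal.ofReal (Wr p n r / BB p n)

theorem Wr_meas (p : ℝ) (n : ℕ) : Measurable (Wr p n) := by
  unfold Wr
  fun_prop

theorem rh_meas (p : ℝ) (n : ℕ) : Measurable fun r => ENNReal.ofReal (Wr p n r / BB p n) :=
  ENNReal.measurable_ofReal.comp ((Wr_meas p n).div_const _)

theorem rh_nn {p : ℝ} (hp1 : 1 ≤ p) (n : ℕ) {r : ℝ} (hr : r ∈ Ioi (0 : ℝ)) :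
    0 ≤ Wr p n r / BB p n := div_nonneg (Wr_nonneg hp1 n hr) (BB_pos hp1 n).le

theorem rh_integral {p : ℝ} (hp1 : 1 ≤ p) (f : ℝ → ℝ) :
    ∫ r, f r ∂(rh p n) = (∫ r in Ioi (0 : ℝ), f r * Wr p n r) / BB p n := by
  unfold rh
  rw [integral_withDensity_eq_integral_toReal_smul (rh_meas p n)
    (Eventually.of_forall fun x => ENNReal.ofReal_lt_top), ← integral_div]
  refine setIntegral_congr_fun measurableSet_Ioi fun r hr => ?_
  show (ENNReal.ofReal (Wr p n r / BB p n)).toReal • f r = f r * Wr p n r / BB p n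
  rw [ENNReal.toReal_ofReal (rh_nn hp1 n hr), smul_eq_mul]
  ring

theorem rh_integrable {p : ℝ} (hp1 : 1 ≤ p) {f : ℝ → ℝ}
    (hf : IntegrableOn (fun r => f r * Wr p n r) (Ioi 0)) : Integrable f (rh p n) := by
  unfold rh
  rw [integrable_withDensity_iff_integrable_smul' (rh_meas p n)
    (Eventually.of_forall fun x => ENNReal.ofReal_lt_top)]
  refine (hf.div_const (BB p n)).congr ?_
  refine (ae_restrict_iff' measurableSet_Ioi).2 (Eventually.of_forall fun r hr => ?_)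
  simp only
  rw [ENNReal.toReal_ofReal (rh_nn hp1 n hr), smul_eq_mul]
  ring

theorem rh_mom {p : ℝ} (hp1 : 1 ≤ p) (hn : 1 ≤ n) (k : ℕ) :
    Integrable (fun r : ℝ => (r ^ p) ^ k) (rh p n) ∧
    ∫ r : ℝ, (r ^ p) ^ k ∂(rh p n) = Real.Gamma (aN p n + k) / BB p n := by
  have hp0 : 0 < p := by linarith
  have hk : 0 ≤ (k : ℝ) * p := by positivity
  have e : ∀ r ∈ Ioi (0 : ℝ), r ^ ((k : ℝ) * p) * Wr p n r = (r ^ p) ^ k * Wr p n r := by
    intro r hr
    rw [mul_comm (k : ℝ) p, Real.rpow_mul (le_of_lt hr), Real.rpow_natCast]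
  constructor
  · exact rh_integrable hp1 ((mom_int hp1 n hn _ hk).congr_fun e measurableSet_Ioi)
  · rw [rh_integral hp1, ← setIntegral_congr_fun measurableSet_Ioi e, mom_val hp1 n hn _ hk,
      mul_div_cancel_right₀ _ hp0.ne']
    rfl

theorem rh_prob {p : ℝ} (hp1 : 1 ≤ p) (hn : 1 ≤ n) : IsProbabilityMeasure (rh p n) := by
  obtain ⟨h1, h2⟩ := rh_mom hp1 hn 0
  have hB := BB_pos hp1 n
  refine ⟨?_⟩
  unfold rh
  rw [withDensity_apply _ MeasurableSet.univ, Measure.restrict_univ,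
    ← ofReal_integral_eq_lintegral_ofReal]
  · have e : ∫ r in Ioi (0 : ℝ), Wr p n r / BB p n = 1 := by
      have h3 := rh_integral (n := n) hp1 fun _ => 1
      simp only [pow_zero, Nat.cast_zero, add_zero] at h2
      have h4 : Real.Gamma (aN p n) = BB p n := rfl
      rw [h4, div_self hB.ne'] at h2
      rw [h2] at h3
      simp only [one_mul] at h3
      rw [integral_div, ← h3]
    rw [e, ENNReal.ofReal_one]
  · have h5 := mom_int hp1 n hn 0 le_rfl
    simp only [Real.rpow_zero, one_mul] at h5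
    exact h5.div_const _
  · exact (ae_restrict_iff' measurableSet_Ioi).2 (Eventually.of_forall fun r hr => rh_nn hp1 n hr)

/-- moments of `z = r ^ p` -/
theorem rh_moms {p : ℝ} (hp1 : 1 ≤ p) (hn : 1 ≤ n) :
    ∫ r : ℝ, r ^ p ∂(rh p n) = aN p n ∧
    ∫ r : ℝ, (r ^ p) ^ 2 ∂(rh p n) = aN p n * (aN p n + 1) ∧
    Integrable (fun r : ℝ => (r ^ p / aN p n - 1) ^ 4) (rh p n) ∧
    ∫ r : ℝ, (r ^ p / aN p n - 1) ^ 4 ∂(rh p n) ≤ 9 / aN p n ^ 2 := by
  have := rh_prob (n := n) hp1 hn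
  have ha := aN_one hp1 n
  have hB := BB_pos hp1 n
  obtain ⟨a, haa⟩ : ∃ a, a = aN p n := ⟨_, rfl⟩
  have g1 : Real.Gamma (a + 1) = a * BB p n := by
    rw [Real.Gamma_add_one (by linarith), haa]; rfl
  have g2 : Real.Gamma (a + 2) = (a + 1) * (a * BB p n) := by
    rw [← g1, ← Real.Gamma_add_one (by linarith)]; congr 1; ring
  have g3 : Real.Gamma (a + 3) = (a + 2) * ((a + 1) * (a * BB p n)) := by
    rw [← g2, ← Real.Gamma_add_one (by linarith)]; congr 1; ring
  have g4 : Real.Gamma (a + 4) = (a + 3) * ((a + 2) * ((a + 1) * (a * BB p n))) := by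
    rw [← g3, ← Real.Gamma_add_one (by linarith)]; congr 1; ring
  obtain ⟨i1, h1⟩ := rh_mom (n := n) hp1 hn 1
  obtain ⟨i2, h2⟩ := rh_mom (n := n) hp1 hn 2
  obtain ⟨i3, h3⟩ := rh_mom (n := n) hp1 hn 3
  obtain ⟨i4, h4⟩ := rh_mom (n := n) hp1 hn 4
  rw [← haa] at h1 h2 h3 h4 ha ⊢
  simp only [pow_one] at i1 h1
  push_cast at h1 h2 h3 h4
  rw [g1, mul_div_assoc, div_self hB.ne', mul_one] at h1
  rw [g2] at h2
  rw [g3] at h3
  rw [g4] at h4
  have h2' : ∫ r : ℝ, (r ^ p) ^ 2 ∂(rh p n) = a * (a + 1) := by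
    rw [h2]; field_simp
  have h3' : ∫ r : ℝ, (r ^ p) ^ 3 ∂(rh p n) = a * (a + 1) * (a + 2) := by
    rw [h3]; field_simp
  have h4' : ∫ r : ℝ, (r ^ p) ^ 4 ∂(rh p n) = a * (a + 1) * (a + 2) * (a + 3) := by
    rw [h4]; field_simp
  have ha0 : a ≠ 0 := by linarith
  have e : ∀ r : ℝ, (r ^ p / a - 1) ^ 4 = (1 / a ^ 4) * (r ^ p) ^ 4 + (-(4 / a ^ 3)) * (r ^ p) ^ 3 +
      (6 / a ^ 2) * (r ^ p) ^ 2 + (-(4 / a)) * (r ^ p) + 1 := by
    intro r
    field_simp
    ring
  have j1 := (((((i4.const_mul (1 / a ^ 4)).add (i3.const_mul (-(4 / a ^ 3)))).add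
      (i2.const_mul (6 / a ^ 2))).add (i1.const_mul (-(4 / a)))).add
      (integrable_const (μ := rh p n) (1 : ℝ)))
  refine ⟨h1, h2', ?_, ?_⟩
  · refine j1.congr (Eventually.of_forall fun r => ?_)
    simp only [Pi.add_apply]
    rw [e]
  · have j2 : ∫ r : ℝ, (r ^ p / a - 1) ^ 4 ∂(rh p n) = (3 * a ^ 2 + 6 * a) / a ^ 4 := by
      simp only [e]
      rw [integral_add, integral_add, integral_add, integral_add, integral_const_mul,
        integral_const_mul, integral_const_mul, integral_const_mul, h1, h2', h3', h4',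
        integral_const, probReal_univ, one_smul]
      · field_simp
        ring
      · exact i4.const_mul _
      · exact i3.const_mul _
      · exact (i4.const_mul _).add (i3.const_mul _)
      · exact i2.const_mul _
      · exact ((i4.const_mul _).add (i3.const_mul _)).add (i2.const_mul _)
      · exact i1.const_mul _
      · exact (((i4.const_mul _).add (i3.const_mul _)).add (i2.const_mul _)).add (i1.const_mul _)
      · exact integrable_const _
    rw [j2, div_le_div_iff₀ (by positivity) (by positivity)]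
    nlinarith [mul_nonneg (sq_nonneg a) (show 0 ≤ a * (a - 1) by nlinarith)]

/-- second moments -/
theorem rh_sq {p : ℝ} (hp1 : 1 ≤ p) (hn : 1 ≤ n) :
    Integrable (fun r : ℝ => (r - RR p n) ^ 2) (rh p n) ∧
    Integrable (fun r : ℝ => r ^ 2) (rh p n) ∧
    ∫ r : ℝ, (r - RR p n) ^ 2 ∂(rh p n) ≤ RR p n ^ 2 / aN p n ∧
    ∫ r : ℝ, r ^ 2 ∂(rh p n) ≤ 4 * RR p n ^ 2 ∧
    RR p n ^ 2 / 2 ≤ ∫ r : ℝ, r ^ 2 ∂(rh p n) := by
  obtain ⟨h1, h2, h3, h4, h5⟩ := rad2 (n := n) hp1 hn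
  have hB := BB_pos hp1 n
  refine ⟨rh_integrable hp1 h1, rh_integrable hp1 h2, ?_, ?_, ?_⟩
  · rw [rh_integral hp1, div_le_iff₀ hB]
    refine h3.trans (le_of_eq ?_)
    ring
  · rw [rh_integral hp1, div_le_iff₀ hB]
    exact h4
  · rw [rh_integral hp1, le_div_iff₀ hB]
    refine le_trans (le_of_eq ?_) h5
    ring

/-- the power function near one -/
theorem pow_near {α τ : ℝ} (h0 : 0 < α) (h1 : α ≤ 1) (hτ : 0 < τ) :
    |τ ^ α - 1 - α * (τ - 1)| ≤ (τ - 1) ^ 2 := by
  have hup : τ ^ α ≤ 1 + α * (τ - 1) := by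
    have := rpow_one_add_le_one_add_mul_self (s := τ - 1) (by linarith) h0.le h1
    rwa [add_sub_cancel] at this
  have hD : τ ^ (1 - α) ≤ 1 + (1 - α) * (τ - 1) := by
    have := rpow_one_add_le_one_add_mul_self (s := τ - 1) (p := 1 - α) (by linarith)
      (by linarith) (by linarith)
    rwa [add_sub_cancel] at this
  have hDa : α ≤ 1 + (1 - α) * (τ - 1) := by nlinarith
  have hD0 : 0 < 1 + (1 - α) * (τ - 1) := by linarith
  have hprod : τ ^ α * τ ^ (1 - α) = τ := by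
    rw [← Real.rpow_add hτ, add_sub_cancel, Real.rpow_one]
  have hα0 : 0 < τ ^ α := Real.rpow_pos_of_pos hτ _
  have hlow : τ ≤ τ ^ α * (1 + (1 - α) * (τ - 1)) := by
    calc τ = τ ^ α * τ ^ (1 - α) := hprod.symm
      _ ≤ _ := mul_le_mul_of_nonneg_left hD hα0.le
  rw [abs_le]
  constructor
  · have key : (1 + α * (τ - 1) - τ ^ α) * (1 + (1 - α) * (τ - 1)) ≤
        (τ - 1) ^ 2 * (1 + (1 - α) * (τ - 1)) := by
      have h2 : (1 + α * (τ - 1)) * (1 + (1 - α) * (τ - 1)) = τ + α * (1 - α) * (τ - 1) ^ 2 := by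
        ring
      have h3 : α * (1 - α) * (τ - 1) ^ 2 ≤ (τ - 1) ^ 2 * (1 + (1 - α) * (τ - 1)) := by
        have h4 : α * (1 - α) ≤ 1 + (1 - α) * (τ - 1) := by nlinarith
        nlinarith [mul_le_mul_of_nonneg_left h4 (sq_nonneg (τ - 1))]
      nlinarith
    have := le_of_mul_le_mul_right key hD0
    linarith
  · have : 0 ≤ (τ - 1) ^ 2 := sq_nonneg _
    linarith

end Pool.Agent.T2H73.LB
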