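import Pool.Agent.T2H73.LB.One

/-!
# Expectations of functions invariant under signed permutations
-/

set_option autoImplicit false

namespace Pool.Agent.T2H73.LB

open MeasureTheory Set Filter Topology ProbabilityTheory
open scoped ENNReal InnerProductSpace
open Pool.Agent.W695.KH (Eu)
open Pool.Agent.Y506.RG (EW VW Adm)
open Pool.Agent.R294.OP3 (integral_Eu)
open Pool.Agent.T2H73.SB

variable {n : ℕ}

/-- product measure -/
noncomputable def Pm (n : ℕ) (p : ℝ) : Measure (Fin n → ℝ) := Measure.pi fun _ => gm p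

/-- product density -/
noncomputable def Dn (p : ℝ) (x : Fin n → ℝ) : ℝ := ∏ i, hp p (x i)

theorem Dn_pos (p : ℝ) (x : Fin n → ℝ) : 0 < Dn p x := Finset.prod_pos fun _ _ => hp_pos p _

theorem Dn_cont {p : ℝ} (hp1 : 1 ≤ p) : Continuous (Dn p : (Fin n → ℝ) → ℝ) :=
  continuous_finsetProd _ fun i _ => (hp_cont hp1).comp (continuous_apply i)

theorem Pm_eq {p : ℝ} (hp1 : 1 ≤ p) : Pm n p =
    (volume : Measure (Fin n → ℝ)).withDensity fun x => ENNReal.ofReal (Dn p x / Zp p ^ n) := by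
  unfold Pm gm
  have := gm_prob hp1
  rw [Pool.Agent.H988R2.pi_withDensity_real (fun _ : Fin n => fun s =>
    ENNReal.ofReal (hp p s / Zp p)) (fun _ => gm_meas hp1) (fun _ => by
      have h : IsProbabilityMeasure (gm p) := gm_prob hp1
      unfold gm at h
      infer_instance)]
  congr 1
  funext x
  rw [← ENNReal.ofReal_prod_of_nonneg fun i _ => div_nonneg (hp_pos p _).le (Zp_pos hp1).le]
  congr 1
  unfold Dn
  rw [Finset.prod_div_distrib, Finset.prod_const, Finset.card_univ, Fintype.card_fin]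

theorem Pm_prob {p : ℝ} (hp1 : 1 ≤ p) : IsProbabilityMeasure (Pm n p) := by
  have := gm_prob hp1
  unfold Pm
  infer_instance

theorem Dn_meas {p : ℝ} (hp1 : 1 ≤ p) :
    Measurable fun x : Fin n → ℝ => ENNReal.ofReal (Dn p x / Zp p ^ n) :=
  ENNReal.measurable_ofReal.comp ((Dn_cont hp1).measurable.div_const _)

theorem Pm_integrable {p : ℝ} (hp1 : 1 ≤ p) {G : (Fin n → ℝ) → ℝ} (hG : Integrable G (Pm n p)) :
    Integrable fun x => G x * Dn p x := by
  have hZ : 0 < Zp p ^ n := pow_pos (Zp_pos hp1) n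
  rw [Pm_eq hp1, integrable_withDensity_iff_integrable_smul' (Dn_meas hp1)
    (Eventually.of_forall fun x => ENNReal.ofReal_lt_top)] at hG
  refine (hG.const_mul (Zp p ^ n)).congr (Eventually.of_forall fun s => ?_)
  simp only
  rw [ENNReal.toReal_ofReal (div_nonneg (Dn_pos p s).le hZ.le), smul_eq_mul]
  field_simp

theorem Pm_integral {p : ℝ} (hp1 : 1 ≤ p) (G : (Fin n → ℝ) → ℝ) :
    ∫ x, G x ∂(Pm n p) = (∫ x, G x * Dn p x) / Zp p ^ n := by
  have hZ : 0 < Zp p ^ n := pow_pos (Zp_pos hp1) n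
  rw [Pm_eq hp1, integral_withDensity_eq_integral_toReal_smul (Dn_meas hp1)
    (Eventually.of_forall fun x => ENNReal.ofReal_lt_top), ← integral_div]
  refine integral_congr_ae (Eventually.of_forall fun s => ?_)
  simp only
  rw [ENNReal.toReal_ofReal (div_nonneg (Dn_pos p s).le hZ.le), smul_eq_mul]
  ring

theorem int_wB (R : Fin n × Bool → Fin n × Bool → Prop) (p : ℝ) (G : (Fin n → ℝ) → ℝ) :
    ∫ x : Eu (Fin n), G (WithLp.ofLp x) * wB R (hp p) x = ∫ x in CB R, G x * Dn p x := by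
  rw [integral_Eu, ← integral_indicator (isClosed_CB R).measurableSet]
  congr 1
  funext x
  unfold wB
  by_cases hx : x ∈ CB R
  · have h1 : (WithLp.toLp 2 x : Eu (Fin n)) ∈ CE R := hx
    rw [indicator_of_mem hx, indicator_of_mem h1]
    rfl
  · have h1 : (WithLp.toLp 2 x : Eu (Fin n)) ∉ CE R := hx
    rw [indicator_of_notMem hx, indicator_of_notMem h1, mul_zero]

theorem Dn_act (p : ℝ) (q : Equiv.Perm (Fin n) × (Fin n → Bool)) (x : Fin n → ℝ) :
    Dn p (act q x) = Dn p x := by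
  unfold Dn act
  have h : ∀ i, hp p (sg (q.2 i) * x (q.1 i)) = hp p (x (q.1 i)) := by
    intro i
    unfold sg
    split_ifs
    · rw [one_mul]
    · rw [neg_one_mul, hp_even]
  rw [Finset.prod_congr rfl fun i _ => h i]
  exact Equiv.prod_comp q.1 fun i => hp p (x i)

/-- **symmetric functions** -/
theorem EW_sym {p : ℝ} (hp1 : 1 ≤ p) (R : Fin n × Bool → Fin n × Bool → Prop)
    (hA : Adm (wB R (hp p))) (G : (Fin n → ℝ) → ℝ)
    (hG : ∀ (q : Equiv.Perm (Fin n) × (Fin n → Bool)) (x : Fin n → ℝ), G (act q x) = G x)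
    (hint : Integrable G (Pm n p)) :
    EW (wB R (hp p)) (fun x => G (WithLp.ofLp x)) = ∫ x, G x ∂(Pm n p) := by
  have hZ : 0 < Zp p ^ n := pow_pos (Zp_pos hp1) n
  have := Pm_prob (n := n) hp1
  have h1 := symB R (fun x => G x * Dn p x) (Pm_integrable hp1 hint) (fun q x => by
    rw [hG, Dn_act])
  have h2 := symB R (fun x => (fun _ => (1 : ℝ)) x * Dn p x)
    (Pm_integrable hp1 (integrable_const 1)) (fun q x => by
    rw [Dn_act])
  have h3 := Pm_integral (n := n) hp1 fun _ => 1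
  rw [integral_const, probReal_univ, one_smul, eq_comm, div_eq_one_iff_eq hZ.ne'] at h3
  have e1 := int_wB R p G
  have e2 := int_wB R p fun _ => 1
  have e3 : ∫ x : Eu (Fin n), (fun _ => (1 : ℝ)) (WithLp.ofLp x) * wB R (hp p) x =
      ∫ x, wB R (hp p) x := by simp only [one_mul]
  have hpos := hA.pos
  rw [← e3, e2] at hpos
  obtain ⟨c, hc⟩ : ∃ c : ℝ, c = (Fintype.card (Equiv.Perm (Fin n) × (Fin n → Bool)) : ℝ) :=
    ⟨_, rfl⟩
  have hc0 : 0 < c := by
    rw [hc]
    exact_mod_cast Fintype.card_pos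
  rw [← hc] at h1 h2
  have hL : (Lc R : ℝ) ≠ 0 := by
    intro h0
    rw [h0, zero_mul] at h2
    rcases mul_eq_zero.1 h2 with h | h
    · exact hc0.ne' h
    · exact hpos.ne' h
  unfold EW
  rw [e1, ← e3, e2, Pm_integral hp1, ← h3, ← mul_div_mul_left _ _ hc0.ne', h1, h2,
    mul_div_mul_left _ _ hL]

/-- sums of one-dimensional even functions -/
theorem sum_act {f : ℝ → ℝ} (hf : ∀ s, f (-s) = f s) (q : Equiv.Perm (Fin n) × (Fin n → Bool))
    (x : Fin n → ℝ) : ∑ i, f (act q x i) = ∑ i, f (x i) := by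
  have h : ∀ i, f (act q x i) = f (x (q.1 i)) := by
    intro i
    unfold act sg
    split_ifs
    · rw [one_mul]
    · rw [neg_one_mul, hf]
  rw [Finset.sum_congr rfl fun i _ => h i]
  exact Equiv.sum_comp q.1 fun i => f (x i)

theorem sum_mean {p : ℝ} (hp1 : 1 ≤ p) {f : ℝ → ℝ} (hm : MemLp f 2 (gm p)) :
    MemLp (∑ i : Fin n, fun x : Fin n → ℝ => f (x i)) 2 (Pm n p) ∧
    ∫ x : Fin n → ℝ, ∑ i, f (x i) ∂(Pm n p) = n * ∫ s, f s ∂(gm p) := by
  have hpr := gm_prob hp1
  have hi := hm.integrable one_le_two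
  refine ⟨?_, ?_⟩
  · unfold Pm
    apply memLp_finsetSum'
    intro i _
    exact hm.comp_measurePreserving (measurePreserving_eval (fun _ : Fin n => gm p) i)
  · unfold Pm
    rw [integral_finsetSum]
    · have h : ∀ i : Fin n, ∫ x : Fin n → ℝ, f (x i) ∂(Measure.pi (fun _ => gm p)) =
          ∫ s, f s ∂(gm p) := by
        intro i
        exact integral_comp_eval (μ := fun _ : Fin n => gm p) (i := i) (f := f)
          hm.aestronglyMeasurable
      rw [Finset.sum_congr rfl (fun i _ => h i)]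
      simp
    · intro i _
      exact integrable_comp_eval (μ := fun _ : Fin n => gm p) (i := i) hi

theorem sum_var {p : ℝ} (hp1 : 1 ≤ p) {f : ℝ → ℝ} (hm : MemLp f 2 (gm p)) :
    Var[∑ i : Fin n, fun x : Fin n → ℝ => f (x i); Pm n p] = n * Var[f; gm p] := by
  have hpr := gm_prob hp1
  have h := variance_sum_pi (μ := fun _ : Fin n => gm p) (X := fun _ => f) (fun _ => hm)
  unfold Pm
  rw [h]
  simp

/-- lower bound for variances -/
theorem var_low {p : ℝ} (hp1 : 1 ≤ p) (R : Fin n × Bool → Fin n × Bool → Prop)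
    (hA : Adm (wB R (hp p))) {f : ℝ → ℝ} (hf : ∀ s, f (-s) = f s) (hm : MemLp f 2 (gm p)) (c : ℝ) :
    n * Var[f; gm p] ≤ EW (wB R (hp p)) fun x => (∑ i, f (x i) - c) ^ 2 := by
  have := Pm_prob (n := n) hp1
  obtain ⟨h1, h2⟩ := sum_mean (n := n) hp1 hm
  have h3 : MemLp (fun x : Fin n → ℝ => ∑ i, f (x i) - c) 2 (Pm n p) := by
    have h4 : (fun x : Fin n → ℝ => ∑ i, f (x i) - c) =
        (∑ i : Fin n, fun x : Fin n → ℝ => f (x i)) - fun _ => c := by
      funext x
      simp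
    rw [h4]
    exact h1.sub (memLp_const c)
  have h5 := EW_sym hp1 R hA (fun x => (∑ i, f (x i) - c) ^ 2) (fun q x => by
    rw [sum_act hf]) h3.integrable_sq
  have e1 : (fun x : Eu (Fin n) => (∑ i, f (x i) - c) ^ 2) =
      fun x => (fun y : Fin n → ℝ => (∑ i, f (y i) - c) ^ 2) (WithLp.ofLp x) := rfl
  rw [e1, h5, ← sum_var hp1 hm]
  have h6 := variance_le_expectation_sq (μ := Pm n p) (X := fun x : Fin n → ℝ =>
    ∑ i, f (x i) - c) h3.aestronglyMeasurable
  have h7 : Var[fun x : Fin n → ℝ => ∑ i, f (x i) - c; Pm n p] =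
      Var[∑ i : Fin n, fun x : Fin n → ℝ => f (x i); Pm n p] := by
    have h8 : (∑ i : Fin n, fun x : Fin n → ℝ => f (x i)) = fun x => ∑ i, f (x i) := by
      funext x
      simp
    rw [h8] at h1 ⊢
    exact variance_sub_const h1.aestronglyMeasurable c
  rw [h7] at h6
  exact h6

/-- moments -/
theorem moms {p : ℝ} (hp1 : 1 ≤ p) (R : Fin n × Bool → Fin n × Bool → Prop)
    (hA : Adm (wB R (hp p))) :
    EW (wB R (hp p)) (fun x => ‖x‖ ^ 2) = n * m2 p ∧
    EW (wB R (hp p)) (sp p) = n / p ∧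
    EW (wB R (hp p)) (fun x => sp p x ^ 2) = n / p * (n / p + 1) := by
  have := Pm_prob (n := n) hp1
  have hp0 : 0 < p := by linarith
  have hm2 : MemLp (fun s : ℝ => s ^ 2) 2 (gm p) := by
    refine (memp hp1 (by norm_num : (0 : ℝ) ≤ 2)).congr_norm (by fun_prop) ?_
    refine Eventually.of_forall fun s => ?_
    rw [Real.rpow_two, sq_abs]
  have hmp := memp hp1 hp0.le
  obtain ⟨a1, a2⟩ := sum_mean (n := n) hp1 hm2
  obtain ⟨b1, b2⟩ := sum_mean (n := n) hp1 hmp
  have ea : (∑ i : Fin n, fun x : Fin n → ℝ => x i ^ 2) = fun x => ∑ i, x i ^ 2 := by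
    funext x
    simp
  have eb : (∑ i : Fin n, fun x : Fin n → ℝ => |x i| ^ p) = fun x => ∑ i, |x i| ^ p := by
    funext x
    simp
  rw [ea] at a1
  rw [eb] at b1
  refine ⟨?_, ?_, ?_⟩
  · have h := EW_sym hp1 R hA (fun x => ∑ i, x i ^ 2) (fun q x =>
      sum_act (f := fun s => s ^ 2) (fun s => by ring) q x) (a1.integrable one_le_two)
    have e1 : (fun x : Eu (Fin n) => ‖x‖ ^ 2) =
        fun x => (fun y : Fin n → ℝ => ∑ i, y i ^ 2) (WithLp.ofLp x) := by
      funext x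
      rw [EuclideanSpace.norm_sq_eq]
      refine Finset.sum_congr rfl fun i _ => ?_
      rw [Real.norm_eq_abs, sq_abs]
    rw [e1, h, a2]
    rfl
  · have h := EW_sym hp1 R hA (fun x => ∑ i, |x i| ^ p) (fun q x =>
      sum_act (f := fun s => |s| ^ p) (fun s => by rw [abs_neg]) q x) (b1.integrable one_le_two)
    have e1 : (sp p : Eu (Fin n) → ℝ) =
        fun x => (fun y : Fin n → ℝ => ∑ i, |y i| ^ p) (WithLp.ofLp x) := rfl
    rw [e1, h, b2, gm_p hp1]
    ring
  · have h := EW_sym hp1 R hA (fun x => (∑ i, |x i| ^ p) ^ 2) (fun q x => by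
      rw [sum_act (f := fun s => |s| ^ p) (fun s => by rw [abs_neg]) q x]) b1.integrable_sq
    have e1 : (fun x : Eu (Fin n) => sp p x ^ 2) =
        fun x => (fun y : Fin n → ℝ => (∑ i, |y i| ^ p) ^ 2) (WithLp.ofLp x) := rfl
    rw [e1, h]
    have hv := variance_eq_sub b1
    have hs := sum_var (n := n) hp1 hmp
    rw [eb, hv] at hs
    have hpr := gm_prob hp1
    have hv1 := variance_eq_sub hmp
    have e2 : ∫ s : ℝ, ((fun s : ℝ => |s| ^ p) ^ 2) s ∂(gm p) = (1 / p + 1) * (1 / p) := gm_pp hp1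
    rw [e2, gm_p hp1] at hv1
    rw [hv1] at hs
    have e3 : ∫ x : Fin n → ℝ, ((fun x : Fin n → ℝ => ∑ i, |x i| ^ p) ^ 2) x ∂(Pm n p) =
        ∫ x : Fin n → ℝ, (∑ i, |x i| ^ p) ^ 2 ∂(Pm n p) := rfl
    rw [e3, b2, gm_p hp1] at hs
    have e4 : (1 / p + 1) * (1 / p) - (1 / p) ^ 2 = 1 / p := by ring
    rw [e4] at hs
    have e5 : ∫ x : Fin n → ℝ, (∑ i, |x i| ^ p) ^ 2 ∂(Pm n p) = n * (1 / p) + (n * (1 / p)) ^ 2 := by
      linarith
    rw [e5]
    ring

end Pool.Agent.T2H73.LB
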